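import Mathlib

/-!
# Amplification with polynomial losses
-/

set_option autoImplicit false

namespace Pool.Agent.H494_RB

open Filter Topology

/-- An inequality up to subexponential factors on powers implies the inequality. -/
theorem amplify2 {k d : ℕ} (hd : 1 ≤ d)
    (h : ∀ ε : ℝ, 0 < ε → ∃ C : ℝ, ∀ n : ℕ, ∃ a : ℕ, n ≤ a ∧
      ((k : ℝ) ^ a) ≤ C * (a * ((a * (d : ℝ) ^ a) ^ (1 + ε)))) : k ≤ d := by
  by_contra hcon
  push Not at hcon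
  have hd0 : (0 : ℝ) < d := by exact_mod_cast hd
  have hkd : (d : ℝ) < k := by exact_mod_cast hcon
  -- choose `ε < 1` with `d ^ (1 + ε) < k`
  have hcont : Tendsto (fun ε : ℝ => (d : ℝ) ^ (1 + ε)) (𝓝[>] 0) (𝓝 (d : ℝ)) := by
    have h1 : ContinuousAt (fun ε : ℝ => (d : ℝ) ^ (1 + ε)) 0 := by
      refine ContinuousAt.rpow continuousAt_const (by fun_prop) (Or.inl hd0.ne')
    have h2 := h1.tendsto
    simp only [add_zero, Real.rpow_one] at h2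
    exact h2.mono_left nhdsWithin_le_nhds
  have hsmall : ∀ᶠ ε : ℝ in 𝓝[>] 0, ε < 1 :=
    (gt_mem_nhds (show (0 : ℝ) < 1 by norm_num)).filter_mono nhdsWithin_le_nhds
  obtain ⟨ε, ⟨hε, hlt⟩, hε1⟩ := (((eventually_mem_nhdsWithin (a := (0 : ℝ)) (s := Set.Ioi 0)).and
    (hcont.eventually (gt_mem_nhds hkd))).and hsmall).exists
  have hε' : 0 < ε := hε
  obtain ⟨C, hC⟩ := h ε hε'
  set r : ℝ := k / (d : ℝ) ^ (1 + ε) with hr
  have hdp : 0 < (d : ℝ) ^ (1 + ε) := Real.rpow_pos_of_pos hd0 _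
  have hr1 : 1 < r := (one_lt_div hdp).mpr hlt
  -- polynomials are small
  have hlim := tendsto_pow_const_div_const_pow_of_one_lt 3 hr1
  have hC1 : 0 < (|C| + 1)⁻¹ := by positivity
  obtain ⟨n, hn⟩ := (eventually_atTop.mp (hlim.eventually (gt_mem_nhds hC1)))
  obtain ⟨a, ha, hle⟩ := hC (n + 1)
  have ha1 : (1 : ℝ) ≤ a := by
    have : 1 ≤ a := by omega
    exact_mod_cast this
  have h3 := hn a (by omega)
  have h4 : ((a : ℝ) * (d : ℝ) ^ a) ^ (1 + ε) = (a : ℝ) ^ (1 + ε) * ((d : ℝ) ^ (1 + ε)) ^ a := by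
    rw [Real.mul_rpow (by positivity) (by positivity), ← Real.rpow_natCast, ← Real.rpow_natCast,
      ← Real.rpow_mul hd0.le, ← Real.rpow_mul hd0.le, mul_comm (a : ℝ) (1 + ε)]
  have h5 : (a : ℝ) ^ (1 + ε) ≤ (a : ℝ) ^ 2 := by
    rw [← Real.rpow_natCast]
    refine Real.rpow_le_rpow_of_exponent_le ha1 ?_
    push_cast
    linarith
  have hrp : 0 < r ^ a := by positivity
  have h6 : r ^ a ≤ |C| * (a : ℝ) ^ 3 := by
    rw [hr, div_pow, div_le_iff₀ (pow_pos hdp a)]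
    refine hle.trans ?_
    rw [h4]
    have h7 : (a : ℝ) * ((a : ℝ) ^ (1 + ε) * ((d : ℝ) ^ (1 + ε)) ^ a) ≤
        (a : ℝ) ^ 3 * ((d : ℝ) ^ (1 + ε)) ^ a := by
      have h8 : 0 ≤ ((d : ℝ) ^ (1 + ε)) ^ a := by positivity
      calc (a : ℝ) * ((a : ℝ) ^ (1 + ε) * ((d : ℝ) ^ (1 + ε)) ^ a) ≤
          (a : ℝ) * ((a : ℝ) ^ 2 * ((d : ℝ) ^ (1 + ε)) ^ a) := by
            refine mul_le_mul_of_nonneg_left ?_ (by positivity)
            exact mul_le_mul_of_nonneg_right h5 h8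
        _ = _ := by ring
    have h9 : 0 ≤ (a : ℝ) * ((a : ℝ) ^ (1 + ε) * ((d : ℝ) ^ (1 + ε)) ^ a) := by positivity
    calc C * ((a : ℝ) * ((a : ℝ) ^ (1 + ε) * ((d : ℝ) ^ (1 + ε)) ^ a)) ≤
        |C| * ((a : ℝ) * ((a : ℝ) ^ (1 + ε) * ((d : ℝ) ^ (1 + ε)) ^ a)) :=
          mul_le_mul_of_nonneg_right (le_abs_self C) h9
      _ ≤ |C| * ((a : ℝ) ^ 3 * ((d : ℝ) ^ (1 + ε)) ^ a) :=
          mul_le_mul_of_nonneg_left h7 (abs_nonneg C)
      _ = _ := by ring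
  rw [div_lt_iff₀ hrp] at h3
  have h7 : (|C| + 1) * (a : ℝ) ^ 3 < r ^ a := by
    have h8 : 0 < |C| + 1 := by positivity
    calc (|C| + 1) * (a : ℝ) ^ 3 < (|C| + 1) * ((|C| + 1)⁻¹ * r ^ a) :=
          mul_lt_mul_of_pos_left h3 h8
      _ = r ^ a := by field_simp
  have h8 : 0 < (a : ℝ) ^ 3 := by positivity
  nlinarith

end Pool.Agent.H494_RB
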