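import Pool.Agent.H494_RB.SemiD

/-!
# Characters of a group and of a normal subgroup
-/

set_option autoImplicit false
set_option linter.unusedSectionVars false

open scoped BigOperators Classical

noncomputable section

namespace Pool.Agent.H494_RB

open Pool.Agent.Q90.WR Pool.Agent.H254R3.IN Pool.Agent.Q259.BW Pool.Agent.Q288.MB
open Pool.Agent.Helper884.IC (B IsClass IsIrrChar Irr)

section blocks

variable {G : Type} [Group G] [Fintype G] {O : ValuationSubring ℂ}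

theorem IsCh.B_nat' {χ ψ : G → ℂ} (h : IsCh χ) (h' : IsCh ψ) : ∃ n : ℕ, B χ ψ = n := by
  obtain ⟨V, i1, i2, i3, ρ, rfl⟩ := h
  obtain ⟨W, j1, j2, j3, τ, rfl⟩ := h'
  exact B_nat ρ τ

/-- the block of a character -/
def Bl (O : ValuationSubring ℂ) {G : Type} [Group G] (χ : G → ℂ) : Set (G → ℂ) :=
  {ψ | IsIrr ψ ∧ ∀ x : G, omega ψ x - omega χ x ∈ O.nonunits}

theorem Bl_block {χ : G → ℂ} (h : IsIrr χ) : IsBlock O (Bl O χ) := ⟨χ, h, rfl⟩

theorem mem_Bl {χ : G → ℂ} (h : IsIrr χ) : χ ∈ Bl O χ :=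
  ⟨h, fun x => by rw [sub_self]; exact O.nonunits.zero_mem⟩

theorem Bl_eq {X : Set (G → ℂ)} (hX : IsBlock O X) {χ : G → ℂ} (h : χ ∈ X) : Bl O χ = X := by
  by_contra hne
  exact Set.disjoint_left.mp (block_disjoint (Bl_block (hX.irr _ h)) hX hne)
    (mem_Bl (hX.irr _ h)) h

/-- the coefficients of the idempotent of a union of blocks -/
theorem coeff_union {X : Set (G → ℂ)} (hX : ∀ θ ∈ X, IsIrr θ) (hcl : ∀ θ ∈ X, Bl O θ ⊆ X)
    (g : G) : blockCoeff X g = ∑ c ∈ ((Irr G).filter (· ∈ X)).image (Bl O), blockCoeff c g := by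
  rw [blockCoeff_eq hX]
  rw [← Finset.sum_fiberwise_of_maps_to (s := (Irr G).filter (· ∈ X))
    (t := ((Irr G).filter (· ∈ X)).image (Bl O)) (g := Bl O)
    (fun θ hθ => Finset.mem_image_of_mem _ hθ), Finset.mul_sum]
  refine Finset.sum_congr rfl fun c hc => ?_
  obtain ⟨θ, hθ, rfl⟩ := Finset.mem_image.mp hc
  have hθi := hX _ (Finset.mem_filter.mp hθ).2
  rw [blockCoeff_eq (Bl_block hθi).irr]
  congr 1
  refine Finset.sum_congr ?_ fun _ _ => rfl
  ext χ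
  simp only [Finset.mem_filter]
  constructor
  · rintro ⟨⟨h1, h2⟩, h3⟩
    refine ⟨h1, ?_⟩
    rw [← h3]
    exact mem_Bl (hX _ h2)
  · rintro ⟨h1, h2⟩
    exact ⟨⟨h1, hcl θ (Finset.mem_filter.mp hθ).2 h2⟩, Bl_eq (Bl_block hθi) h2⟩

theorem coeff_union_mem {X : Set (G → ℂ)} (hX : ∀ θ ∈ X, IsIrr θ) (hcl : ∀ θ ∈ X, Bl O θ ⊆ X)
    (g : G) : blockCoeff X g ∈ O := by
  rw [coeff_union hX hcl]
  refine sum_mem fun c hc => ?_
  obtain ⟨θ, hθ, rfl⟩ := Finset.mem_image.mp hc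
  exact blockCoeff_mem (Bl_block (hX _ (Finset.mem_filter.mp hθ).2)) g

theorem coeff_all : blockCoeff {χ : G → ℂ | IsIrr χ} = dl := by
  apply eq_of_Om (blockCoeff_cl fun _ h => h) dl_cl
  intro χ hχ
  rw [Om_blockCoeff (fun _ h => h) hχ, Om_dl hχ, if_pos]
  exact hχ

/-- the regular character -/
theorem reg_char (x : G) : ∑ χ ∈ Irr G, χ 1 * χ x⁻¹ = (Nat.card G : ℂ) * dl x := by
  rw [← coeff_all, blockCoeff_eq (B := {χ : G → ℂ | IsIrr χ}) (fun _ h => h),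
    mul_inv_cancel_left₀ (cardG_ne G)]
  refine Finset.sum_congr ?_ fun _ _ => rfl
  ext χ
  rw [Finset.mem_filter, mem_Irr]
  exact ⟨fun h => ⟨h, h⟩, fun h => h.1⟩

end blocks

section mult

variable {H : Type} [Group H] [Fintype H] {N : Subgroup H} {O : ValuationSubring ℂ}

/-- multiplicity of `ψ` in the restriction of `χ` -/
def mult (χ : H → ℂ) (ψ : N → ℂ) : ℂ := B (fun n : N => χ n) ψ

/-- the degree as a natural number -/
def dg {G : Type} [Group G] (χ : G → ℂ) : ℕ := if h : ∃ n : ℕ, χ 1 = n then h.choose else 0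

/-- the multiplicity as a natural number -/
def mu' (χ : H → ℂ) (ψ : N → ℂ) : ℕ := if h : ∃ n : ℕ, mult χ ψ = n then h.choose else 0

theorem dg_spec {G : Type} [Group G] {χ : G → ℂ} (h : IsIrr χ) : χ 1 = dg χ ∧ 0 < dg χ := by
  obtain ⟨n, hn, hn'⟩ := h.deg
  have h1 : ∃ n : ℕ, χ 1 = n := ⟨n, hn'.symm⟩
  have h2 : χ 1 = dg χ := by
    unfold dg
    rw [dif_pos h1]
    exact h1.choose_spec
  refine ⟨h2, ?_⟩
  rw [← hn'] at h2
  have : n = dg χ := by exact_mod_cast h2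
  omega

theorem mu_spec {χ : H → ℂ} {ψ : N → ℂ} (h : IsIrr χ) (h' : IsIrr ψ) : mult χ ψ = mu' χ ψ := by
  have h1 : ∃ n : ℕ, mult χ ψ = n :=
    ((IsCh.of_irr h).comp N.subtype).B_nat' (IsCh.of_irr h')
  unfold mu'
  rw [dif_pos h1]
  exact h1.choose_spec

/-- the degree of the induced character -/
theorem ind_deg {ψ : N → ℂ} (h' : IsIrr ψ) :
    ∑ χ ∈ Irr H, dg χ * mu' χ ψ = N.index * dg ψ := by
  have h1 : (∑ χ ∈ Irr H, χ 1 * mult χ ψ) = (N.index : ℂ) * ψ 1 := by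
    unfold mult B
    have e1 : ∀ χ : H → ℂ, χ 1 * ((Nat.card N : ℂ)⁻¹ * ∑ n : N, χ n * ψ n⁻¹) =
        (Nat.card N : ℂ)⁻¹ * ∑ n : N, (χ 1 * χ (n : H)) * ψ n⁻¹ := by
      intro χ
      rw [Finset.mul_sum, Finset.mul_sum, Finset.mul_sum]
      refine Finset.sum_congr rfl fun n _ => ?_
      ring
    simp_rw [e1]
    rw [← Finset.mul_sum, Finset.sum_comm]
    have e2 : ∀ n : N, ∑ χ ∈ Irr H, (χ 1 * χ (n : H)) * ψ n⁻¹ =
        if n = 1 then (Nat.card H : ℂ) * ψ 1 else 0 := by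
      intro n
      rw [← Finset.sum_mul]
      have h2 := reg_char ((n : H)⁻¹)
      rw [inv_inv] at h2
      rw [h2]
      unfold dl
      by_cases hn : n = 1
      · subst hn
        simp
      · rw [if_neg hn, if_neg (fun h => hn (by
          apply Subtype.ext
          rw [Subgroup.coe_one]
          exact inv_eq_one.mp h)), mul_zero, zero_mul]
    simp_rw [e2]
    rw [Finset.sum_ite_eq' Finset.univ (1 : N)]
    rw [if_pos (Finset.mem_univ _), ← Subgroup.card_mul_index N]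
    have := cardG_ne N
    push_cast
    field_simp
  have h2 : ((∑ χ ∈ Irr H, dg χ * mu' χ ψ : ℕ) : ℂ) = ((N.index * dg ψ : ℕ) : ℂ) := by
    push_cast
    rw [← (dg_spec h').1, ← h1]
    refine Finset.sum_congr rfl fun χ hχ => ?_
    have hχ' : IsIrr χ := mem_Irr.mp hχ
    rw [mu_spec hχ' h', (dg_spec hχ').1]
  exact_mod_cast h2

theorem res_expand {χ : H → ℂ} (h : IsIrr χ) (n : N) :
    χ n = ∑ ψ ∈ Irr N, mult χ ψ * ψ n := by
  have h1 := Pool.Agent.Helper884.IC.expand (fun n : N => χ n)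
    ((IsCh.of_irr h).comp N.subtype).isClass
  have h2 := congrFun h1 n
  simp only [Finset.sum_apply, Pi.smul_apply, smul_eq_mul] at h2
  exact h2

/-- the degree of the restriction -/
theorem res_deg {χ : H → ℂ} (h : IsIrr χ) : dg χ = ∑ ψ ∈ Irr N, mu' χ ψ * dg ψ := by
  have h1 := res_expand (N := N) h 1
  have h2 : ((dg χ : ℕ) : ℂ) = ((∑ ψ ∈ Irr N, mu' χ ψ * dg ψ : ℕ) : ℂ) := by
    push_cast
    rw [← (dg_spec h).1]
    have h3 : χ 1 = ∑ ψ ∈ Irr N, mult χ ψ * ψ 1 := h1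
    rw [h3]
    refine Finset.sum_congr rfl fun ψ hψ => ?_
    have hψ' : IsIrr ψ := mem_Irr.mp hψ
    rw [mu_spec h hψ', (dg_spec hψ').1]
  exact_mod_cast h2

theorem exists_under {χ : H → ℂ} (h : IsIrr χ) : ∃ ψ : N → ℂ, IsIrr ψ ∧ mu' χ ψ ≠ 0 := by
  have h1 := res_deg (N := N) h
  have h2 := (dg_spec h).2
  rw [h1] at h2
  obtain ⟨ψ, hψ, hne⟩ := Finset.exists_ne_zero_of_sum_ne_zero h2.ne'
  exact ⟨ψ, mem_Irr.mp hψ, fun h0 => hne (by rw [h0, zero_mul])⟩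

/-- the number of characters over a given one -/
theorem count_over {ψ : N → ℂ} (h' : IsIrr ψ) :
    ((Irr H).filter (fun χ => mu' χ ψ ≠ 0)).card ≤ N.index := by
  have h1 := ind_deg h'
  have h2 : ((Irr H).filter (fun χ => mu' χ ψ ≠ 0)).card * dg ψ ≤
      ∑ χ ∈ (Irr H).filter (fun χ => mu' χ ψ ≠ 0), dg χ * mu' χ ψ := by
    rw [← smul_eq_mul, ← Finset.sum_const]
    refine Finset.sum_le_sum fun χ hχ => ?_
    obtain ⟨h3, h4⟩ := Finset.mem_filter.mp hχ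
    have h5 := res_deg (N := N) (mem_Irr.mp h3)
    have h6 : mu' χ ψ * dg ψ ≤ dg χ := by
      rw [h5]
      exact Finset.single_le_sum (f := fun ψ => mu' χ ψ * dg ψ) (fun _ _ => Nat.zero_le _)
        (mem_Irr.mpr h')
    calc dg ψ ≤ mu' χ ψ * dg ψ := Nat.le_mul_of_pos_left _ (Nat.pos_of_ne_zero h4)
      _ ≤ dg χ := h6
      _ ≤ dg χ * mu' χ ψ := Nat.le_mul_of_pos_right _ (Nat.pos_of_ne_zero h4)
  have h3 : ∑ χ ∈ (Irr H).filter (fun χ => mu' χ ψ ≠ 0), dg χ * mu' χ ψ ≤ N.index * dg ψ := by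
    rw [← h1]
    exact Finset.sum_le_sum_of_subset (Finset.filter_subset _ _)
  exact Nat.le_of_mul_le_mul_right (h2.trans h3) (dg_spec h').2

/-- the number of characters under a given one -/
theorem count_under {χ : H → ℂ} (h : IsIrr χ) :
    ((Irr N).filter (fun ψ => mu' χ ψ ≠ 0)).card ≤ N.index := by
  have h2 : ((Irr N).filter (fun ψ => mu' χ ψ ≠ 0)).card * dg χ ≤
      ∑ ψ ∈ (Irr N).filter (fun ψ => mu' χ ψ ≠ 0), N.index * (mu' χ ψ * dg ψ) := by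
    rw [← smul_eq_mul, ← Finset.sum_const]
    refine Finset.sum_le_sum fun ψ hψ => ?_
    obtain ⟨h3, h4⟩ := Finset.mem_filter.mp hψ
    have h5 := ind_deg (mem_Irr.mp h3)
    have h6 : dg χ * mu' χ ψ ≤ N.index * dg ψ := by
      rw [← h5]
      exact Finset.single_le_sum (f := fun χ => dg χ * mu' χ ψ) (fun _ _ => Nat.zero_le _)
        (mem_Irr.mpr h)
    calc dg χ ≤ dg χ * mu' χ ψ := Nat.le_mul_of_pos_right _ (Nat.pos_of_ne_zero h4)
      _ ≤ N.index * dg ψ := h6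
      _ ≤ N.index * (mu' χ ψ * dg ψ) :=
        Nat.mul_le_mul_left _ (Nat.le_mul_of_pos_left _ (Nat.pos_of_ne_zero h4))
  have h3 : ∑ ψ ∈ (Irr N).filter (fun ψ => mu' χ ψ ≠ 0), N.index * (mu' χ ψ * dg ψ) ≤
      N.index * dg χ := by
    rw [← Finset.mul_sum]
    refine Nat.mul_le_mul_left _ ?_
    rw [res_deg (N := N) h]
    exact Finset.sum_le_sum_of_subset (Finset.filter_subset _ _)
  exact Nat.le_of_mul_le_mul_right (h2.trans h3) (dg_spec h).2

end mult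

end Pool.Agent.H494_RB
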