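import Pool.Agent.H494_RB.Cov

/-!
# Blocks of a group and of a normal subgroup
-/

set_option autoImplicit false
set_option linter.unusedSectionVars false

open scoped BigOperators Classical

noncomputable section

namespace Pool.Agent.H494_RB

open Pool.Agent.Q90.WR Pool.Agent.H254R3.IN Pool.Agent.Q259.BW Pool.Agent.Q288.MB
open Pool.Agent.Helper884.IC (B IsClass IsIrrChar Irr)

section exz

variable {H : Type} [Group H] [Fintype H] {N : Subgroup H} {O : ValuationSubring ℂ}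

/-- extension by zero -/
def exz (f : N → ℂ) (x : H) : ℂ := if h : x ∈ N then f ⟨x, h⟩ else 0

theorem exz_coe (f : N → ℂ) (n : N) : exz f (n : H) = f n := by
  unfold exz
  rw [dif_pos n.2]

theorem exz_inj {f g : N → ℂ} (h : exz f = exz g) : f = g := by
  funext n
  rw [← exz_coe f, ← exz_coe g, h]

theorem sum_exz (f : N → ℂ) (F : H → ℂ) : ∑ x, exz f x * F x = ∑ n : N, f n * F n := by
  have h1 : ∑ x ∈ Finset.univ.filter (· ∈ N), exz f x * F x = ∑ n : N, exz f (n : H) * F n :=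
    Finset.sum_subtype _ (fun x => by simp only [Finset.mem_filter, Finset.mem_univ, true_and])
      fun x => exz f x * F x
  simp only [exz_coe] at h1
  rw [← h1, Finset.sum_filter]
  refine Finset.sum_congr rfl fun x _ => ?_
  by_cases hx : x ∈ N
  · rw [if_pos hx]
  · rw [if_neg hx]
    unfold exz
    rw [dif_neg hx, zero_mul]

theorem exz_cl [hN : N.Normal] {f : N → ℂ} (hf : ∀ (h : H) (n : N), f (MulAut.conjNormal h n) = f n) :
    IsCl (exz f) := by
  intro g y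
  by_cases hg : g ∈ N
  · have h1 := hf y ⟨g, hg⟩
    rw [← exz_coe f, ← exz_coe f] at h1
    rw [MulAut.conjNormal_apply] at h1
    exact h1
  · have hg' : y * g * y⁻¹ ∉ N := fun h => hg (by
      have := hN.conj_mem _ h y⁻¹
      have e : y⁻¹ * (y * g * y⁻¹) * y⁻¹⁻¹ = g := by group
      rwa [e] at this)
    unfold exz
    rw [dif_neg hg, dif_neg hg']

theorem exz_mem {f : N → ℂ} (hf : ∀ n, f n ∈ O) (x : H) : exz f x ∈ O := by
  unfold exz
  split_ifs
  · exact hf _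
  · exact O.zero_mem

theorem exz_conv (f g : N → ℂ) : conv (exz f) (exz g) = exz (conv f g) := by
  funext x
  have e1 : conv (exz f) (exz g) x = ∑ n : N, f n * exz g ((n : H)⁻¹ * x) :=
    sum_exz f fun y => exz g (y⁻¹ * x)
  rw [e1]
  by_cases hx : x ∈ N
  · have e2 : exz (conv f g) x = conv f g ⟨x, hx⟩ := exz_coe _ (⟨x, hx⟩ : N)
    rw [e2]
    unfold conv
    refine Finset.sum_congr rfl fun n _ => ?_
    congr 1
    exact exz_coe g (n⁻¹ * ⟨x, hx⟩)
  · have e2 : exz (conv f g) x = 0 := by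
      unfold exz
      rw [dif_neg hx]
    rw [e2]
    refine Finset.sum_eq_zero fun n _ => ?_
    have : (n : H)⁻¹ * x ∉ N := fun h => hx (by
      have := N.mul_mem n.2 h
      rwa [mul_inv_cancel_left] at this)
    unfold exz
    rw [dif_neg this, mul_zero]

theorem coeff_idem {G : Type} [Group G] [Fintype G] {X : Set (G → ℂ)} (hX : ∀ θ ∈ X, IsIrr θ) :
    conv (blockCoeff X) (blockCoeff X) = blockCoeff X := by
  apply eq_of_Om ((blockCoeff_cl hX).conv (blockCoeff_cl hX)) (blockCoeff_cl hX)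
  intro χ hχ
  rw [Om_conv hχ (blockCoeff_cl hX) (blockCoeff_cl hX), Om_blockCoeff hX hχ]
  split_ifs <;> simp

/-- `X` is stable under conjugation with elements of `H` -/
def HStable [N.Normal] (X : Set (N → ℂ)) : Prop :=
  ∀ h : H, ∀ θ ∈ X, (fun n => θ (MulAut.conjNormal h n)) ∈ X

theorem coeff_hst [N.Normal] {X : Set (N → ℂ)} (hX : ∀ θ ∈ X, IsIrr θ) (hs : HStable X) (h : H)
    (n : N) : blockCoeff X (MulAut.conjNormal h n) = blockCoeff X n := by
  have e1 : pull (MulAut.conjNormal h) X = X := by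
    ext θ
    constructor
    · intro hθ
      have h1 := hs h _ hθ
      have e : (fun n => (fun k => θ ((MulAut.conjNormal h).symm k)) (MulAut.conjNormal h n)) =
          θ := by
        funext n
        simp
      rwa [e] at h1
    · intro hθ
      have h1 := hs h⁻¹ _ hθ
      have e : (fun n => θ (MulAut.conjNormal h⁻¹ n)) =
          fun k => θ ((MulAut.conjNormal h).symm k) := by
        funext n
        rw [map_inv]
        rfl
      rwa [e] at h1
  rw [← coeff_pull (MulAut.conjNormal h) hX, e1]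

theorem Om_exz_val {X : Set (N → ℂ)} (hX : ∀ θ ∈ X, IsIrr θ) {χ : H → ℂ} (h : IsIrr χ) :
    Om (exz (blockCoeff X)) χ * χ 1 = ((∑ ψ ∈ (Irr N).filter (· ∈ X), mu' χ ψ * dg ψ : ℕ) : ℂ) := by
  unfold Om
  rw [sum_exz, div_mul_cancel₀ _ h.one_ne]
  have e1 : ∀ n : N, blockCoeff X n * χ n = ∑ ψ ∈ Irr N, mult χ ψ * (blockCoeff X n * ψ n) := by
    intro n
    rw [res_expand h n, Finset.mul_sum]
    refine Finset.sum_congr rfl fun ψ _ => ?_
    ring
  simp_rw [e1]
  rw [Finset.sum_comm, Finset.sum_filter]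
  push_cast
  refine Finset.sum_congr rfl fun ψ hψ => ?_
  have hψ' : IsIrr ψ := mem_Irr.mp hψ
  rw [← Finset.mul_sum]
  have e2 : ∑ n : N, blockCoeff X n * ψ n = Om (blockCoeff X) ψ * ψ 1 := by
    unfold Om
    rw [div_mul_cancel₀ _ hψ'.one_ne]
  rw [e2, Om_blockCoeff hX hψ', mu_spec h hψ', (dg_spec hψ').1]
  split_ifs <;> simp

theorem Om_exz_dich [N.Normal] {X : Set (N → ℂ)} (hX : ∀ θ ∈ X, IsIrr θ) (hs : HStable X)
    {χ : H → ℂ} (h : IsIrr χ) :
    Om (exz (blockCoeff X)) χ = 0 ∨ Om (exz (blockCoeff X)) χ = 1 := by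
  have hcl := exz_cl (coeff_hst hX hs)
  have h1 := Om_conv h hcl hcl
  rw [exz_conv, coeff_idem hX] at h1
  have h2 : Om (exz (blockCoeff X)) χ * (Om (exz (blockCoeff X)) χ - 1) = 0 := by
    linear_combination -h1
  rcases mul_eq_zero.mp h2 with h3 | h3
  · exact Or.inl h3
  · exact Or.inr (sub_eq_zero.mp h3)

theorem Om_exz_one [N.Normal] {X : Set (N → ℂ)} (hX : ∀ θ ∈ X, IsIrr θ) (hs : HStable X)
    {χ : H → ℂ} (h : IsIrr χ) {ψ : N → ℂ} (hψ : ψ ∈ X) (hm : mu' χ ψ ≠ 0) :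
    Om (exz (blockCoeff X)) χ = 1 := by
  rcases Om_exz_dich hX hs h with h1 | h1
  · exfalso
    have h2 := Om_exz_val hX h
    rw [h1, zero_mul] at h2
    have h3 : (∑ ψ ∈ (Irr N).filter (· ∈ X), mu' χ ψ * dg ψ : ℕ) = 0 := by exact_mod_cast h2.symm
    rw [Finset.sum_eq_zero_iff] at h3
    have h4 := h3 ψ (Finset.mem_filter.mpr ⟨mem_Irr.mpr (hX _ hψ), hψ⟩)
    rcases Nat.mul_eq_zero.mp h4 with h5 | h5
    · exact hm h5
    · exact (dg_spec (hX _ hψ)).2.ne' h5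
  · exact h1

theorem mem_of_Om_one {X : Set (N → ℂ)} (hX : ∀ θ ∈ X, IsIrr θ)
    {χ : H → ℂ} (h : IsIrr χ) (h1 : Om (exz (blockCoeff X)) χ = 1) {ψ : N → ℂ} (hψ : IsIrr ψ)
    (hm : mu' χ ψ ≠ 0) : ψ ∈ X := by
  by_contra hcon
  have h2 := Om_exz_val hX h
  rw [h1, one_mul, (dg_spec h).1] at h2
  have h3 : dg χ = (∑ ψ ∈ (Irr N).filter (· ∈ X), mu' χ ψ * dg ψ : ℕ) := by exact_mod_cast h2
  have h4 := res_deg (N := N) h
  rw [← Finset.sum_filter_add_sum_filter_not (Irr N) (· ∈ X), ← h3] at h4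
  have h5 : ∑ ψ ∈ (Irr N).filter (fun ψ => ¬ ψ ∈ X), mu' χ ψ * dg ψ = 0 := by omega
  rw [Finset.sum_eq_zero_iff] at h5
  have h6 := h5 ψ (Finset.mem_filter.mpr ⟨mem_Irr.mpr hψ, hcon⟩)
  rcases Nat.mul_eq_zero.mp h6 with h7 | h7
  · exact hm h7
  · exact (dg_spec hψ).2.ne' h7

/-- the union of the conjugates of `b` -/
def orb [N.Normal] (b : Set (N → ℂ)) : Set (N → ℂ) :=
  {θ | ∃ h : H, (fun n => θ (MulAut.conjNormal h n)) ∈ b}

variable [hN : N.Normal] {b : Set (N → ℂ)}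

theorem orb_iff {θ : N → ℂ} : θ ∈ orb b ↔ ∃ h : H, θ ∈ pull (MulAut.conjNormal h) b := by
  constructor
  · rintro ⟨h, hh⟩
    refine ⟨h⁻¹, ?_⟩
    have e : (fun k => θ ((MulAut.conjNormal h⁻¹).symm k)) =
        fun n => θ (MulAut.conjNormal h n) := by
      funext n
      rw [map_inv]
      rfl
    change (fun k => θ ((MulAut.conjNormal h⁻¹).symm k)) ∈ b
    rw [e]
    exact hh
  · rintro ⟨h, hh⟩
    refine ⟨h⁻¹, ?_⟩
    have e : (fun n => θ (MulAut.conjNormal h⁻¹ n)) =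
        fun k => θ ((MulAut.conjNormal h).symm k) := by
      funext n
      rw [map_inv]
      rfl
    rw [e]
    exact hh

theorem orb_irr (hb : ∀ θ ∈ b, IsIrr θ) : ∀ θ ∈ orb b, IsIrr θ := by
  intro θ hθ
  obtain ⟨h, hh⟩ := orb_iff.mp hθ
  exact pull_irr _ hb _ hh

theorem orb_union (hb : IsBlock O b) : ∀ θ ∈ orb b, Bl O θ ⊆ orb b := by
  intro θ hθ ψ hψ
  obtain ⟨h, hh⟩ := orb_iff.mp hθ
  rw [Bl_eq (pull_block (MulAut.conjNormal h) hb) hh] at hψ
  exact orb_iff.mpr ⟨h, hψ⟩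

theorem orb_stable : HStable (orb b) := by
  rintro g θ ⟨h, hh⟩
  refine ⟨g⁻¹ * h, ?_⟩
  have e : (fun n => (fun n => θ (MulAut.conjNormal g n)) (MulAut.conjNormal (g⁻¹ * h) n)) =
      fun n => θ (MulAut.conjNormal h n) := by
    funext n
    change θ (MulAut.conjNormal g (MulAut.conjNormal (g⁻¹ * h) n)) = _
    rw [← MulAut.mul_apply, ← map_mul, mul_inv_cancel_left]
  rw [e]
  exact hh

theorem mem_orb {θ : N → ℂ} (h : θ ∈ b) : θ ∈ orb b := ⟨1, by simpa using h⟩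

/-- the block of a character over `b` -/
theorem Om_orb_block (hb : IsBlock O b) {Y : Set (H → ℂ)} (hY : IsBlock O Y) {χ χ' : H → ℂ}
    (h : χ ∈ Y) (h' : χ' ∈ Y) (h1 : Om (exz (blockCoeff (orb b))) χ = 1) :
    Om (exz (blockCoeff (orb b))) χ' = 1 := by
  have hX := orb_irr hb.irr
  have hcl := exz_cl (coeff_hst hX orb_stable)
  have hO := exz_mem (coeff_union_mem hX (orb_union hb))
  rcases Om_exz_dich hX orb_stable (hY.irr _ h') with h2 | h2
  · exfalso
    have e1 := (red_Om (hY.irr _ h) hcl hO).2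
    have e2 := (red_Om (hY.irr _ h') hcl hO).2
    rw [h1, red_one] at e1
    rw [h2, red_zero] at e2
    rw [Finset.sum_congr rfl fun K _ => by rw [hY.red_eq h h'], ← e2] at e1
    exact one_ne_zero e1
  · exact h2

theorem mult_conj {χ : H → ℂ} (hχ : IsIrr χ) (ψ : N → ℂ) (h : H) :
    mult χ (fun n => ψ (MulAut.conjNormal h n)) = mult χ ψ := by
  unfold mult B
  congr 1
  refine Fintype.sum_equiv (MulAut.conjNormal h).toEquiv _ _ fun n => ?_
  have e1 : χ (((MulAut.conjNormal h).toEquiv n : N) : H) = χ n := by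
    have : (((MulAut.conjNormal h).toEquiv n : N) : H) = h * n * h⁻¹ := MulAut.conjNormal_apply h n
    rw [this, hχ.conj]
  change χ n * ψ (MulAut.conjNormal h n⁻¹) =
    χ (((MulAut.conjNormal h).toEquiv n : N) : H) * ψ ((MulAut.conjNormal h).toEquiv n)⁻¹
  rw [e1, map_inv]
  rfl

theorem mu_conj {χ : H → ℂ} (hχ : IsIrr χ) (ψ : N → ℂ) (h : H) :
    mu' χ (fun n => ψ (MulAut.conjNormal h n)) = mu' χ ψ := by
  unfold mu'
  simp only [mult_conj hχ ψ h]

/-- the part of the block idempotent supported on `N` -/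
theorem Om_res {Y : Set (H → ℂ)} (hY : ∀ χ ∈ Y, IsIrr χ) {ψ : N → ℂ} (hψ : IsIrr ψ) :
    Om (fun n : N => blockCoeff Y n) ψ * (ψ 1 * Nat.card H) =
      Nat.card N * ((∑ χ ∈ (Irr H).filter (· ∈ Y), dg χ * mu' χ ψ : ℕ) : ℂ) := by
  unfold Om
  rw [← mul_assoc, div_mul_cancel₀ _ hψ.one_ne]
  simp_rw [blockCoeff_eq hY]
  have e1 : ∀ n : N, (Nat.card H : ℂ)⁻¹ * (∑ χ ∈ (Irr H).filter (· ∈ Y), χ 1 * χ (n : H)⁻¹) * ψ n =
      (Nat.card H : ℂ)⁻¹ * ∑ χ ∈ (Irr H).filter (· ∈ Y), χ 1 * (χ (n : H)⁻¹ * ψ n) := by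
    intro n
    rw [mul_assoc, Finset.sum_mul]
    congr 1
    refine Finset.sum_congr rfl fun χ _ => ?_
    ring
  simp_rw [e1]
  rw [← Finset.mul_sum, Finset.sum_comm]
  push_cast
  have hH := cardG_ne H
  have hNn := cardG_ne N
  rw [mul_comm ((Nat.card H : ℂ)⁻¹) _, mul_assoc, inv_mul_cancel₀ hH, mul_one, Finset.mul_sum]
  refine Finset.sum_congr rfl fun χ hχ => ?_
  have hχ' : IsIrr χ := mem_Irr.mp (Finset.mem_filter.mp hχ).1
  rw [← (dg_spec hχ').1, ← mu_spec hχ' hψ, ← Finset.mul_sum]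
  unfold mult B
  have e2 : ∑ n : N, χ (n : H)⁻¹ * ψ n = ∑ n : N, χ n * ψ n⁻¹ :=
    Fintype.sum_equiv (Equiv.inv N) _ _ fun n => by simp
  rw [e2]
  field_simp

end exz

end Pool.Agent.H494_RB
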