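import Pool.Agent.H494_RB.PerfG
import Pool.Agent.H494_RB.Amp2

/-!
# Brauer's k(B) conjecture and blocks of perfect groups
-/

set_option autoImplicit false
set_option linter.unusedSectionVars false

noncomputable section

namespace Pool.Agent.H494_RB

open Pool.Agent.H254R3.IN

theorem exists_large_perfect (n : ℕ) : ∃ (A : Type) (_ : Group A) (_ : Finite A),
    Group.IsPerfect A ∧ Nontrivial A ∧ n ≤ Nat.card A := by
  have h5 : 5 ≤ Nat.card (Fin (n + 5)) := by
    rw [Nat.card_eq_fintype_card, Fintype.card_fin]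
    omega
  refine ⟨alternatingGroup (Fin (n + 5)), inferInstance, inferInstance, perfect_alt _ h5,
    alternatingGroup.nontrivial_of_three_le_card (by omega), ?_⟩
  have hnt : Nontrivial (Fin (n + 5)) := Fin.nontrivial_iff_two_le.mpr (by omega)
  have h1 := two_mul_nat_card_alternatingGroup (α := Fin (n + 5))
  have h2 : Nat.card (Equiv.Perm (Fin (n + 5))) = (n + 5).factorial := by
    rw [Nat.card_eq_fintype_card, Fintype.card_perm, Fintype.card_fin]
  rw [h2, Nat.factorial_succ] at h1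
  have h3 : n + 4 ≤ (n + 4).factorial := Nat.self_le_factorial _
  have h4 : (n + 4 + 1) * 2 ≤ (n + 4 + 1) * (n + 4).factorial :=
    Nat.mul_le_mul_left _ (by omega)
  omega

variable {O : ValuationSubring ℂ} {p : ℕ} [hp : Fact p.Prime]

/-- the hypothesis for Galois-stable blocks of perfect groups implies the one for all blocks of
perfect groups -/
theorem all_of_galois (hpO : (p : ℂ) ∈ O.nonunits) {ε C : ℝ}
    (h : ∀ (G : Type) [Group G] [Finite G] (B : Set (G → ℂ)) (D : Subgroup G), Group.IsPerfect G →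
      IsBlock O B → IsDefectGroup p O B D → (∀ σ : ℂ ≃+* ℂ, ∀ χ ∈ B, (fun g => σ (χ g)) ∈ B) →
      (Nat.card B : ℝ) ≤ C * (Nat.card D : ℝ) ^ (1 + ε))
    (G : Type) [Group G] [Finite G] (B : Set (G → ℂ)) (D : Subgroup G) (hG : Group.IsPerfect G)
    (hB : IsBlock O B) (hD : IsDefectGroup p O B D) :
    (Nat.card B : ℝ) ≤ max C 1 * (Nat.card D : ℝ) ^ (1 + ε) := by
  have := Fintype.ofFinite G
  obtain ⟨H, i1, i2, Y, E, m, hH, hm, hY, hE, hs, h6, h7⟩ := exists_galois hpO hB hD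
  have h8 := h H Y E hH hY hE hs
  rw [h6, h7] at h8
  have hd0 : (0 : ℝ) < Nat.card D := by exact_mod_cast Nat.card_pos
  have hdp : 0 < (Nat.card D : ℝ) ^ (1 + ε) := Real.rpow_pos_of_pos hd0 _
  have e1 : (((Nat.card D ^ m : ℕ) : ℝ)) ^ (1 + ε) = ((Nat.card D : ℝ) ^ (1 + ε)) ^ m := by
    push_cast
    rw [← Real.rpow_natCast, ← Real.rpow_natCast, ← Real.rpow_mul hd0.le, ← Real.rpow_mul hd0.le,
      mul_comm]
  rw [e1] at h8
  push_cast at h8
  have hC1 : (1 : ℝ) ≤ max C 1 := le_max_right _ _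
  have h9 : (Nat.card B : ℝ) ^ m ≤ (max C 1 * (Nat.card D : ℝ) ^ (1 + ε)) ^ m := by
    rw [mul_pow]
    refine h8.trans (mul_le_mul_of_nonneg_right ?_ (pow_pos hdp m).le)
    calc C ≤ max C 1 := le_max_left _ _
      _ ≤ (max C 1) ^ m := le_self_pow₀ hC1 (by omega)
  exact (pow_le_pow_iff_left₀ (by positivity) (by positivity) (by omega)).mp h9

/-- the main reduction -/
theorem main_reduction (hpO : (p : ℂ) ∈ O.nonunits)
    (h : ∀ ε : ℝ, 0 < ε → ∃ C : ℝ, ∀ (G : Type) [Group G] [Finite G] (B : Set (G → ℂ))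
      (D : Subgroup G), Group.IsPerfect G → IsBlock O B → IsDefectGroup p O B D →
      (∀ σ : ℂ ≃+* ℂ, ∀ χ ∈ B, (fun g => σ (χ g)) ∈ B) →
      (Nat.card B : ℝ) ≤ C * (Nat.card D : ℝ) ^ (1 + ε))
    (G : Type) [Group G] [Finite G] (B : Set (G → ℂ)) (D : Subgroup G)
    (hB : IsBlock O B) (hD : IsDefectGroup p O B D) : Nat.card B ≤ Nat.card D := by
  have := Fintype.ofFinite G
  obtain ⟨H, i1, i2, Y, E, m, hm, hY, hE, hs, h6, h7⟩ := exists_stable hpO hB hD 1
  have hfin := Fintype.ofFinite H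
  suffices hYE : Nat.card Y ≤ Nat.card E by
    rw [h6, h7] at hYE
    exact (Nat.pow_le_pow_iff_left (by omega)).mp hYE
  refine amplify2 (Nat.card_pos : 0 < Nat.card E) fun ε hε => ?_
  obtain ⟨C, hC⟩ := h ε hε
  refine ⟨Nat.card H * max C 1, fun n => ?_⟩
  obtain ⟨A, j1, j2, hA, hnt, hn⟩ := exists_large_perfect n
  have hfinA := Fintype.ofFinite A
  refine ⟨Nat.card A, hn, ?_⟩
  obtain ⟨Z, F, hZ, hF, hk, hd⟩ := perfect_block (A := A) hpO hY hE hs.2
  have hRW : Finite (RW A H) := Finite.of_equiv _ SemidirectProduct.equivProd.symm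
  have h9 := all_of_galois hpO (@hC) _ Z F perfect_comm hZ hF
  have hC1 : (1 : ℝ) ≤ max C 1 := le_max_right _ _
  have h10 : ((Nat.card F : ℝ)) ^ (1 + ε) ≤
      ((Nat.card A : ℝ) * (Nat.card E : ℝ) ^ Nat.card A) ^ (1 + ε) := by
    refine Real.rpow_le_rpow (by positivity) ?_ (by linarith)
    exact_mod_cast hd
  calc (Nat.card Y : ℝ) ^ Nat.card A ≤ Nat.card H * (Nat.card A * Nat.card Z) := by
        exact_mod_cast hk
    _ ≤ Nat.card H * (Nat.card A * (max C 1 *
        ((Nat.card A : ℝ) * (Nat.card E : ℝ) ^ Nat.card A) ^ (1 + ε))) := by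
        refine mul_le_mul_of_nonneg_left (mul_le_mul_of_nonneg_left ?_ (by positivity))
          (by positivity)
        exact h9.trans (mul_le_mul_of_nonneg_left h10 (by linarith))
    _ = _ := by ring

end Pool.Agent.H494_RB
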