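import Pool.Agent.H494_RB.Cov2

/-!
# Blocks of a group and of a normal subgroup: numbers of characters and defect groups
-/

set_option autoImplicit false
set_option linter.unusedSectionVars false

open scoped BigOperators Classical

noncomputable section

namespace Pool.Agent.H494_RB

open Pool.Agent.Q90.WR Pool.Agent.H254R3.IN Pool.Agent.Q259.BW Pool.Agent.Q288.MB
open Pool.Agent.Helper884.IC (B IsClass IsIrrChar Irr)

section num

variable {G : Type} [Group G] [Fintype G] {O : ValuationSubring ℂ} {p : ℕ} [hp : Fact p.Prime]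

theorem pow_dvd_of {s d r : ℕ} (h : p ^ s ∣ p ^ d * r) (hr : ¬ p ∣ r) : p ^ s ∣ p ^ d :=
  (Nat.Coprime.pow_left _ ((Nat.Prime.coprime_iff_not_dvd hp.out).mpr hr)).dvd_of_dvd_mul_right h

/-- a Sylow subgroup of a subgroup, as a subgroup -/
theorem exists_sylow (C : Subgroup G) : ∃ Q : Subgroup G, Q ≤ C ∧ IsPGroup p Q ∧
    ¬ p ∣ Q.relIndex C := by
  obtain ⟨Q⟩ : Nonempty (Sylow p C) := inferInstance
  exact ⟨_, (sylow_iff (p := p) C _).mp ⟨Q, rfl⟩⟩

/-- orders of `p`-subgroups -/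
theorem pg_dvd {Q D C C' : Subgroup G} (hQ : IsPGroup p Q) (hD : IsPGroup p D) (h1 : Q ≤ C')
    (h2 : D ≤ C) (h3 : ¬ p ∣ D.relIndex C) (h4 : Nat.card C' = Nat.card C) :
    Nat.card Q ∣ Nat.card D := by
  have c1 := card_mul_relIndex h1
  have c2 := card_mul_relIndex h2
  obtain ⟨d, hd⟩ := IsPGroup.iff_card.mp hD
  obtain ⟨s, hs⟩ := IsPGroup.iff_card.mp hQ
  rw [hd, hs]
  rw [h4, ← c2, hs, hd] at c1
  exact pow_dvd_of ⟨_, c1.symm⟩ h3

/-- every block has a defect group -/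
theorem exists_defect {X : Set (G → ℂ)} (hX : IsBlock O X) : ∃ D : Subgroup G, ∃ x : G,
    D ≤ Subgroup.centralizer ({x} : Set G) ∧ IsPGroup p D ∧
      ¬ p ∣ D.relIndex (Subgroup.centralizer ({x} : Set G)) ∧
      (∀ χ ∈ X, omega χ x ∉ O.nonunits) ∧ blockCoeff X x ∉ O.nonunits := by
  obtain ⟨x, h1, h2⟩ := exists_class hX
  obtain ⟨Q, q1, q2, q3⟩ := exists_sylow (p := p) (Subgroup.centralizer ({x} : Set G))
  exact ⟨Q, x, q1, q2, q3, h2, h1⟩

/-- upper bound for `p`-subgroups of a centraliser -/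
theorem dvd_defect (hpO : (p : ℂ) ∈ O.nonunits) {X : Set (G → ℂ)} (hX : IsBlock O X)
    {D : Subgroup G} (hD : IsDefectGroup p O X D) {y : G} (hy : blockCoeff X y ∉ O.nonunits)
    {Q : Subgroup G} (hQ : IsPGroup p Q) (hQy : Q ≤ Subgroup.centralizer ({y} : Set G)) :
    Nat.card Q ∣ Nat.card D := by
  obtain ⟨x, d1, d2, d3, d4, d5⟩ := isDefectGroup_iff.mp hD
  obtain ⟨k, hk, hQk⟩ := minmax hpO hX d4 hy hQ hQy
  exact pg_dvd hQ d2 hQk d1 d3 (card_centralizer_congr hk).symm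

/-- lower bound for the order of a centraliser -/
theorem defect_dvd (hpO : (p : ℂ) ∈ O.nonunits) {X : Set (G → ℂ)} (hX : IsBlock O X)
    {D : Subgroup G} (hD : IsDefectGroup p O X D) {y : G}
    (hy : ∀ χ ∈ X, omega χ y ∉ O.nonunits) :
    Nat.card D ∣ Nat.card (Subgroup.centralizer ({y} : Set G)) := by
  obtain ⟨x, d1, d2, d3, d4, d5⟩ := isDefectGroup_iff.mp hD
  obtain ⟨k, hk, hDk⟩ := minmax hpO hX hy d5 d2 d1
  rw [card_centralizer_congr hk]
  exact Subgroup.card_dvd_of_le hDk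

end num

section updown

variable {H : Type} [Group H] [Fintype H] {N : Subgroup H} [hN : N.Normal]
  {O : ValuationSubring ℂ} {p : ℕ} [hp : Fact p.Prime]

/-- the centraliser in `N` -/
theorem cent_sub (y : N) : ∃ t : ℕ, t ≤ N.index ∧
    Nat.card (Subgroup.centralizer ({(y : H)} : Set H)) =
      Nat.card (Subgroup.centralizer ({y} : Set N)) * t := by
  set C := Subgroup.centralizer ({(y : H)} : Set H) with hC
  refine ⟨(N ⊓ C).relIndex C, ?_, ?_⟩
  · rw [Subgroup.inf_relIndex_right]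
    exact Nat.le_of_dvd (Nat.pos_of_ne_zero Subgroup.index_ne_zero_of_finite)
      (Subgroup.relIndex_dvd_index_of_normal N C)
  · have h1 := card_mul_relIndex (inf_le_right : N ⊓ C ≤ C)
    rw [← h1]
    congr 1
    refine Nat.card_congr
      { toFun := fun z => ⟨⟨z.1, z.2.1⟩, ?_⟩
        invFun := fun z => ⟨(z.1 : H), z.1.2, ?_⟩
        left_inv := fun z => rfl
        right_inv := fun z => rfl }
    · have h2 := Subgroup.mem_centralizer_singleton_iff.mp z.2.2
      rw [Subgroup.mem_centralizer_singleton_iff]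
      exact Subtype.ext h2
    · have h2 := Subgroup.mem_centralizer_singleton_iff.mp z.2
      exact Subgroup.mem_centralizer_singleton_iff.mpr (congrArg Subtype.val h2)

/-- **Going up.** Every block of a normal subgroup `N` has a block of `H` above it with at least
`k(b) / |H : N|` characters and a defect group of order at most `|H : N| |D|`. -/
theorem go_up (hpO : (p : ℂ) ∈ O.nonunits) {b : Set (N → ℂ)} (hb : IsBlock O b)
    {D : Subgroup N} (hD : IsDefectGroup p O b D) :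
    ∃ (Y : Set (H → ℂ)) (E : Subgroup H), IsBlock O Y ∧ IsDefectGroup p O Y E ∧
      Nat.card b ≤ N.index * Nat.card Y ∧ Nat.card E ≤ N.index * Nat.card D := by
  obtain ⟨ψ₀, hψ₀⟩ := hb.nonempty
  have hi₀ := hb.irr _ hψ₀
  -- a block `Y` of `H`
  have hsum : ∑ c ∈ ((Irr H).filter (· ∈ {χ : H → ℂ | IsIrr χ})).image (Bl O),
      Om (fun n : N => blockCoeff c (n : H)) ψ₀ = 1 := by
    have e1 : (fun n : N => ∑ c ∈ ((Irr H).filter (· ∈ {χ : H → ℂ | IsIrr χ})).image (Bl O),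
        blockCoeff c (n : H)) = (dl : N → ℂ) := by
      funext n
      rw [← coeff_union (O := O) (X := {χ : H → ℂ | IsIrr χ}) (fun _ h => h)
        (fun θ hθ ψ hψ => hψ.1), coeff_all]
      unfold dl
      by_cases hn : n = 1
      · rw [if_pos hn, if_pos (by rw [hn]; rfl)]
      · have hn' : ¬ ((n : H) = 1) := fun h => hn (Subtype.ext h)
        rw [if_neg hn, if_neg hn']
    rw [← Om_dl hi₀, ← e1]
    unfold Om
    rw [← Finset.sum_div]
    congr 1
    rw [Finset.sum_comm]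
    refine Finset.sum_congr rfl fun n _ => ?_
    rw [Finset.sum_mul]
  have hcl : ∀ Y : Set (H → ℂ), IsBlock O Y → IsCl (fun n : N => blockCoeff Y (n : H)) :=
    fun Y hY g y => blockCoeff_cl hY.irr (g : H) (y : H)
  have hO : ∀ Y : Set (H → ℂ), IsBlock O Y → ∀ n : N, blockCoeff Y (n : H) ∈ O :=
    fun Y hY n => blockCoeff_mem hY _
  obtain ⟨Y, hY, hY0⟩ : ∃ Y : Set (H → ℂ), IsBlock O Y ∧
      red O (Om (fun n : N => blockCoeff Y (n : H)) ψ₀) ≠ 0 := by
    by_contra hcon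
    push Not at hcon
    have hblk : ∀ c ∈ ((Irr H).filter (· ∈ {χ : H → ℂ | IsIrr χ})).image (Bl O),
        IsBlock O c := by
      intro c hc
      obtain ⟨θ, hθ, rfl⟩ := Finset.mem_image.mp hc
      exact Bl_block (mem_Irr.mp (Finset.mem_filter.mp hθ).1)
    have h1 := congrArg (red O) hsum
    rw [red_sum _ _ fun c hc => (red_Om hi₀ (hcl c (hblk c hc)) (hO c (hblk c hc))).1, red_one,
      Finset.sum_eq_zero fun c hc => hcon c (hblk c hc)] at h1
    exact zero_ne_one h1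
  -- every character of `b` is under a character of `Y`
  have hunder : ∀ ψ ∈ b, ∃ χ ∈ Y, mu' χ ψ ≠ 0 := by
    intro ψ hψ
    have hψi := hb.irr _ hψ
    have h1 : red O (Om (fun n : N => blockCoeff Y (n : H)) ψ) ≠ 0 := by
      rw [(red_Om hψi (hcl Y hY) (hO Y hY)).2]
      rw [(red_Om hi₀ (hcl Y hY) (hO Y hY)).2] at hY0
      rwa [Finset.sum_congr rfl fun K _ => by rw [hb.red_eq hψ hψ₀]]
    have h2 : Om (fun n : N => blockCoeff Y (n : H)) ψ ≠ 0 := fun h => h1 (by rw [h, red_zero])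
    have h3 := Om_res hY.irr hψi
    by_contra hcon
    push Not at hcon
    rw [Finset.sum_eq_zero fun χ hχ => by rw [hcon χ (Finset.mem_filter.mp hχ).2, mul_zero]] at h3
    rw [Nat.cast_zero, mul_zero] at h3
    rcases mul_eq_zero.mp h3 with h4 | h4
    · exact h2 h4
    · exact mul_ne_zero hψi.one_ne (cardG_ne H) h4
  have hcount : Nat.card b ≤ N.index * Nat.card Y := by
    rw [card_set hb.irr, card_set hY.irr, mul_comm]
    have h1 : (Irr N).filter (· ∈ b) ⊆ ((Irr H).filter (· ∈ Y)).biUnion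
        (fun χ => (Irr N).filter (fun ψ => mu' χ ψ ≠ 0)) := by
      intro ψ hψ
      obtain ⟨h2, h3⟩ := Finset.mem_filter.mp hψ
      obtain ⟨χ, h4, h5⟩ := hunder ψ h3
      exact Finset.mem_biUnion.mpr ⟨χ, Finset.mem_filter.mpr ⟨mem_Irr.mpr (hY.irr _ h4), h4⟩,
        Finset.mem_filter.mpr ⟨h2, h5⟩⟩
    refine (Finset.card_le_card h1).trans ?_
    exact Finset.card_biUnion_le_card_mul _ _ _ fun χ hχ =>
      count_under (mem_Irr.mp (Finset.mem_filter.mp hχ).1)
  -- the defect group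
  obtain ⟨χ₀, hχ₀, hm₀⟩ := hunder ψ₀ hψ₀
  have hXi := orb_irr (H := H) hb.irr
  have hone := Om_exz_one hXi orb_stable (hY.irr _ hχ₀) (mem_orb hψ₀) hm₀
  have hE := (red_Om (hY.irr _ hχ₀) (exz_cl (coeff_hst hXi orb_stable))
    (exz_mem (coeff_union_mem hXi (orb_union hb)))).2
  rw [hone, red_one] at hE
  obtain ⟨κ, -, hκ⟩ := Finset.exists_ne_zero_of_sum_ne_zero (hE ▸ one_ne_zero)
  set y := rep κ with hy
  have hy1 : red O (exz (blockCoeff (orb b)) y) ≠ 0 := fun h => hκ (by rw [h, zero_mul])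
  have hy2 : ∀ χ ∈ Y, omega χ y ∉ O.nonunits := by
    intro χ hχ h
    apply hκ
    rw [← hY.red_eq hχ hχ₀, red_eq_zero h, mul_zero]
  have hyN : y ∈ N := by
    by_contra hcon
    apply hy1
    unfold exz
    rw [dif_neg hcon, red_zero]
  have e2 : exz (blockCoeff (orb b)) y = blockCoeff (orb b) ⟨y, hyN⟩ := exz_coe _ (⟨y, hyN⟩ : N)
  rw [e2, coeff_union hXi (orb_union hb), red_sum _ _ (fun c hc => by
    obtain ⟨θ, hθ, rfl⟩ := Finset.mem_image.mp hc
    exact blockCoeff_mem (Bl_block (mem_Irr.mp (Finset.mem_filter.mp hθ).1)) _)] at hy1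
  obtain ⟨c, hc, hc'⟩ := Finset.exists_ne_zero_of_sum_ne_zero hy1
  obtain ⟨θ, hθ, rfl⟩ := Finset.mem_image.mp hc
  obtain ⟨h, hh⟩ := orb_iff.mp (Finset.mem_filter.mp hθ).2
  rw [Bl_eq (pull_block (MulAut.conjNormal h) hb) hh] at hc'
  have hcb := pull_block (O := O) (MulAut.conjNormal h) hb
  have hcD := pull_defect (MulAut.conjNormal h) hb.irr hD
  have hcy : blockCoeff (pull (MulAut.conjNormal h) b) (⟨y, hyN⟩ : N) ∉ O.nonunits :=
    fun h' => hc' (red_eq_zero h')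
  obtain ⟨Q, q1, q2, q3⟩ := exists_sylow (p := p) (Subgroup.centralizer ({(⟨y, hyN⟩ : N)} : Set N))
  have hQ := dvd_defect hpO hcb hcD hcy q2 q1
  have hcard : Nat.card (D.comap (MulAut.conjNormal h : MulAut N).toMonoidHom) = Nat.card D := by
    refine Nat.card_congr (Equiv.subtypeEquiv (MulAut.conjNormal h : MulAut N).toEquiv fun z => ?_)
    rfl
  rw [hcard] at hQ
  obtain ⟨E, x, e1, e2', e3, e4, e5⟩ := exists_defect (p := p) hY
  have hEd : IsDefectGroup p O Y E := isDefectGroup_iff.mpr ⟨x, e1, e2', e3, e4, e5⟩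
  refine ⟨Y, E, hY, hEd, hcount, ?_⟩
  have h5 := defect_dvd hpO hY hEd hy2
  obtain ⟨t, ht, ht'⟩ := cent_sub (H := H) (⟨y, hyN⟩ : N)
  have h6 := card_mul_relIndex q1
  have h7 : Nat.card E ∣ Nat.card Q * t * Q.relIndex (Subgroup.centralizer ({(⟨y, hyN⟩ : N)} : Set N)) := by
    have : Nat.card (Subgroup.centralizer ({y} : Set H)) = Nat.card Q * t *
        Q.relIndex (Subgroup.centralizer ({(⟨y, hyN⟩ : N)} : Set N)) := by
      rw [show Nat.card (Subgroup.centralizer ({y} : Set H)) = _ from ht', ← h6]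
      ring
    rw [← this]
    exact h5
  obtain ⟨s, hs⟩ := IsPGroup.iff_card.mp e2'
  have h8 : (Nat.card E).Coprime (Q.relIndex (Subgroup.centralizer ({(⟨y, hyN⟩ : N)} : Set N))) := by
    rw [hs]
    exact Nat.Coprime.pow_left _ ((Nat.Prime.coprime_iff_not_dvd hp.out).mpr q3)
  have h9 := h8.dvd_of_dvd_mul_right h7
  have htpos : 0 < t := by
    rcases Nat.eq_zero_or_pos t with h0 | h0
    · rw [h0, mul_zero] at ht'
      exact absurd ht' Nat.card_pos.ne'
    · exact h0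
  have h10 : Nat.card E ≤ Nat.card Q * t := Nat.le_of_dvd (Nat.mul_pos Nat.card_pos htpos) h9
  have h11 : Nat.card Q ≤ Nat.card D := Nat.le_of_dvd Nat.card_pos hQ
  calc Nat.card E ≤ Nat.card Q * t := h10
    _ ≤ Nat.card D * N.index := Nat.mul_le_mul h11 ht
    _ = N.index * Nat.card D := mul_comm _ _

/-- **Going down.** A block of `H` whose idempotent is supported on the normal subgroup `N` has a
block of `N` under it with at least `k(Y) / |H : N|` characters and a defect group of order at most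
`|D|`. -/
theorem go_down (hpO : (p : ℂ) ∈ O.nonunits) {Y : Set (H → ℂ)} (hY : IsBlock O Y)
    {D : Subgroup H} (hD : IsDefectGroup p O Y D) (hsupp : ∀ x, x ∉ N → blockCoeff Y x = 0) :
    ∃ (b : Set (N → ℂ)) (E : Subgroup N), IsBlock O b ∧ IsDefectGroup p O b E ∧
      Nat.card Y ≤ N.index * Nat.card b ∧ Nat.card E ≤ Nat.card D := by
  obtain ⟨χ₀, hχ₀⟩ := hY.nonempty
  obtain ⟨ψ₀, hψ₀, hm₀⟩ := exists_under (N := N) (hY.irr _ hχ₀)
  have hb : IsBlock O (Bl O ψ₀) := Bl_block hψ₀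
  have hb₀ : ψ₀ ∈ Bl O ψ₀ := mem_Bl hψ₀
  have hXi := orb_irr (H := H) hb.irr
  have hone := Om_exz_one hXi orb_stable (hY.irr _ hχ₀) (mem_orb hb₀) hm₀
  have hover : ∀ χ ∈ Y, ∃ ψ ∈ Bl O ψ₀, mu' χ ψ ≠ 0 := by
    intro χ hχ
    have h1 := Om_orb_block hb hY hχ₀ hχ hone
    obtain ⟨ψ, hψ, hm⟩ := exists_under (N := N) (hY.irr _ hχ)
    obtain ⟨h, hh⟩ := mem_of_Om_one hXi (hY.irr _ hχ) h1 hψ hm
    exact ⟨_, hh, by rwa [mu_conj (hY.irr _ hχ)]⟩
  have hcount : Nat.card Y ≤ N.index * Nat.card (Bl O ψ₀) := by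
    rw [card_set hb.irr, card_set hY.irr, mul_comm]
    have h1 : (Irr H).filter (· ∈ Y) ⊆ ((Irr N).filter (· ∈ Bl O ψ₀)).biUnion
        (fun ψ => (Irr H).filter (fun χ => mu' χ ψ ≠ 0)) := by
      intro χ hχ
      obtain ⟨h2, h3⟩ := Finset.mem_filter.mp hχ
      obtain ⟨ψ, h4, h5⟩ := hover χ h3
      exact Finset.mem_biUnion.mpr ⟨ψ, Finset.mem_filter.mpr ⟨mem_Irr.mpr (hb.irr _ h4), h4⟩,
        Finset.mem_filter.mpr ⟨h2, h5⟩⟩
    refine (Finset.card_le_card h1).trans ?_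
    exact Finset.card_biUnion_le_card_mul _ _ _ fun ψ hψ =>
      count_over (mem_Irr.mp (Finset.mem_filter.mp hψ).1)
  -- the idempotent in `N`
  set F : N → ℂ := fun n => blockCoeff Y (n : H) with hF
  have hFex : exz F = blockCoeff Y := by
    funext x
    by_cases hx : x ∈ N
    · exact exz_coe F (⟨x, hx⟩ : N)
    · unfold exz
      rw [dif_neg hx, hsupp x hx]
  have hFcl : IsCl F := fun g y => blockCoeff_cl hY.irr (g : H) (y : H)
  have hFO : ∀ n, F n ∈ O := fun n => blockCoeff_mem hY _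
  have hFF : conv F F = F := by
    apply exz_inj
    rw [← exz_conv, hFex, coeff_idem hY.irr]
  have hOm1 : Om F ψ₀ = 1 := by
    have h1 := Om_conv hψ₀ hFcl hFcl
    rw [hFF] at h1
    have h2 : Om F ψ₀ ≠ 0 := by
      intro h0
      have h3 := Om_res hY.irr hψ₀
      rw [show Om (fun n : N => blockCoeff Y (n : H)) ψ₀ = 0 from h0, zero_mul] at h3
      have h4 : ((∑ χ ∈ (Irr H).filter (· ∈ Y), dg χ * mu' χ ψ₀ : ℕ) : ℂ) = 0 := by
        rcases mul_eq_zero.mp h3.symm with h5 | h5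
        · exact absurd h5 (cardG_ne N)
        · exact h5
      have h5 : (∑ χ ∈ (Irr H).filter (· ∈ Y), dg χ * mu' χ ψ₀ : ℕ) = 0 := by exact_mod_cast h4
      rw [Finset.sum_eq_zero_iff] at h5
      have h6 := h5 χ₀ (Finset.mem_filter.mpr ⟨mem_Irr.mpr (hY.irr _ hχ₀), hχ₀⟩)
      rcases Nat.mul_eq_zero.mp h6 with h7 | h7
      · exact (dg_spec (hY.irr _ hχ₀)).2.ne' h7
      · exact hm₀ h7
    have h3 : Om F ψ₀ * (Om F ψ₀ - 1) = 0 := by linear_combination -h1
    exact sub_eq_zero.mp ((mul_eq_zero.mp h3).resolve_left h2)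
  have hE := (red_Om hψ₀ hFcl hFO).2
  rw [hOm1, red_one] at hE
  obtain ⟨κ, -, hκ⟩ := Finset.exists_ne_zero_of_sum_ne_zero (hE ▸ one_ne_zero)
  set y : N := rep κ with hy
  have hy1 : blockCoeff Y (y : H) ∉ O.nonunits := fun h => hκ (by
    rw [show red O (F y) = 0 from red_eq_zero h, zero_mul])
  have hy2 : ∀ χ ∈ Bl O ψ₀, omega χ y ∉ O.nonunits := by
    intro χ hχ h
    apply hκ
    rw [← hb.red_eq hχ hb₀, red_eq_zero h, mul_zero]
  obtain ⟨E, x, e1, e2, e3, e4, e5⟩ := exists_defect (p := p) hb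
  have hEd : IsDefectGroup p O (Bl O ψ₀) E := isDefectGroup_iff.mpr ⟨x, e1, e2, e3, e4, e5⟩
  refine ⟨Bl O ψ₀, E, hb, hEd, hcount, ?_⟩
  have h5 := defect_dvd hpO hb hEd hy2
  obtain ⟨Q, q1, q2, q3⟩ := exists_sylow (p := p) (Subgroup.centralizer ({(y : H)} : Set H))
  have hQ := dvd_defect hpO hY hD hy1 q2 q1
  obtain ⟨t, -, ht'⟩ := cent_sub (H := H) y
  have h6 := card_mul_relIndex q1
  have h7 : Nat.card E ∣ Nat.card Q * Q.relIndex (Subgroup.centralizer ({(y : H)} : Set H)) := by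
    rw [h6, ht']
    exact h5.trans (Dvd.intro _ rfl)
  obtain ⟨s, hs⟩ := IsPGroup.iff_card.mp e2
  have h8 : (Nat.card E).Coprime (Q.relIndex (Subgroup.centralizer ({(y : H)} : Set H))) := by
    rw [hs]
    exact Nat.Coprime.pow_left _ ((Nat.Prime.coprime_iff_not_dvd hp.out).mpr q3)
  exact Nat.le_of_dvd Nat.card_pos ((h8.dvd_of_dvd_mul_right h7).trans hQ)

end updown

end Pool.Agent.H494_RB
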