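import Pool.Agent.H494_RB.Twist
import Pool.Agent.H494_RB.UpDown

/-!
# The commutator subgroup of a regular wreath product with a perfect group
-/

set_option autoImplicit false
set_option linter.unusedSectionVars false

open scoped BigOperators Classical

noncomputable section

namespace Pool.Agent.H494_RB

open Pool.Agent.Q90.WR Pool.Agent.H254R3.IN Pool.Agent.Q259.BW Pool.Agent.Q288.MB
open Pool.Agent.Helper884.IC (B IsClass IsIrrChar Irr)
open SemidirectProduct
open scoped commutatorElement

/-- the regular action of `A` on `G^A` -/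
def regAct (A G : Type) [Group A] [Group G] : A →* MulAut (A → G) :=
  (act A G).comp (MulAction.toPermHom A A)

theorem regAct_apply {A G : Type} [Group A] [Group G] (a : A) (g : A → G) (i : A) :
    regAct A G a g i = g (a⁻¹ * i) := rfl

/-- the regular wreath product -/
abbrev RW (A G : Type) [Group A] [Group G] : Type := (A → G) ⋊[regAct A G] A

section perf

variable {A G : Type} [Group A] [Group G] [Fintype A] [Fintype G]

theorem single_conj (a : A) (g : G) : (inl (Pi.mulSingle a g) : RW A G) =
    inr a * inl (Pi.mulSingle 1 g) * inr a⁻¹ := by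
  rw [← inl_aut]
  congr 1
  funext k
  rw [regAct_apply]
  by_cases hk : k = a
  · subst hk
    rw [inv_mul_cancel, Pi.mulSingle_eq_same, Pi.mulSingle_eq_same]
  · rw [Pi.mulSingle_eq_of_ne hk, Pi.mulSingle_eq_of_ne fun h => hk (by
      rw [inv_mul_eq_one] at h
      exact h.symm)]

variable (R : Subgroup (RW A G)) [R.Normal]

/-- the image of one factor in the quotient -/
def rho : G →* RW A G ⧸ R :=
  (QuotientGroup.mk' R).comp ((inl : (A → G) →* RW A G).comp (MonoidHom.mulSingle (fun _ => G) 1))

theorem rho_eq (hR : ∀ a : A, (inr a : RW A G) ∈ R) (a : A) (g : G) :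
    QuotientGroup.mk' R (inl (Pi.mulSingle a g)) = rho R g := by
  have h1 : ∀ a : A, QuotientGroup.mk' R (inr a) = 1 := fun a =>
    (QuotientGroup.eq_one_iff _).mpr (hR a)
  rw [single_conj, map_mul, map_mul, h1, h1, one_mul, mul_one]
  rfl

theorem mk_inl_mem (hR : ∀ a : A, (inr a : RW A G) ∈ R) (g : A → G) :
    QuotientGroup.mk' R (inl g) ∈ (rho R).range := by
  have h1 : g = Finset.univ.noncommProd (fun i => Pi.mulSingle i (g i))
      (fun i _ j _ _ => Pi.mulSingle_apply_commute g i j) :=
    (Finset.noncommProd_mulSingle g).symm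
  rw [h1, Finset.map_noncommProd, Finset.map_noncommProd]
  refine Subgroup.noncommProd_mem _ _ fun i _ => ?_
  rw [rho_eq R hR]
  exact ⟨g i, rfl⟩

theorem rho_comm [Nontrivial A] (hR : ∀ a : A, (inr a : RW A G) ∈ R) (g h : G) :
    rho R g * rho R h = rho R h * rho R g := by
  obtain ⟨a, ha⟩ := exists_ne (1 : A)
  have h1 : Commute (inl (Pi.mulSingle 1 g) : RW A G) (inl (Pi.mulSingle a h)) :=
    (Pi.mulSingle_commute (f := fun _ : A => G) ha.symm g h).map (inl : (A → G) →* RW A G)
  have h2 := h1.map (QuotientGroup.mk' R)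
  have h3 : QuotientGroup.mk' R (inl (Pi.mulSingle a h)) = rho R h := rho_eq R hR a h
  rw [h3] at h2
  exact h2.eq

theorem comm_le [Nontrivial A] (hR : ∀ a : A, (inr a : RW A G) ∈ R) :
    commutator (RW A G) ≤ R := by
  rw [commutator_def, Subgroup.commutator_le]
  intro x _ y _
  have key : ∀ x : RW A G, ∃ g, rho R g = QuotientGroup.mk' R x := by
    intro x
    obtain ⟨g, hg⟩ := mk_inl_mem R hR x.left
    refine ⟨g, ?_⟩
    rw [hg]
    conv_rhs => rw [← inl_left_mul_inr_right x]
    rw [map_mul, show QuotientGroup.mk' R (inr x.right) = 1 from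
      (QuotientGroup.eq_one_iff _).mpr (hR _), mul_one]
  rw [← QuotientGroup.eq_one_iff]
  obtain ⟨g, hg⟩ := key x
  obtain ⟨h, hh⟩ := key y
  have h1 : QuotientGroup.mk' R ⁅x, y⁆ = 1 := by
    rw [map_commutatorElement, ← hg, ← hh, commutatorElement_eq_one_iff_mul_comm]
    exact rho_comm R hR g h
  exact h1

theorem inr_mem_comm [hA : Group.IsPerfect A] (a : A) : (inr a : RW A G) ∈ commutator (RW A G) := by
  have h1 : a ∈ commutator A := Group.IsPerfect.mem_commutator
  have h2 : (commutator A).map (inr : A →* RW A G) ≤ commutator (RW A G) := by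
    rw [commutator_def, Subgroup.map_commutator, commutator_def]
    exact Subgroup.commutator_mono le_top le_top
  exact h2 ⟨a, h1, rfl⟩

theorem perfect_comm [hA : Group.IsPerfect A] [Nontrivial A] :
    Group.IsPerfect (commutator (RW A G)) := by
  rw [Subgroup.isPerfect_iff]
  refine le_antisymm (Subgroup.commutator_le_self _) ?_
  refine comm_le ⁅commutator (RW A G), commutator (RW A G)⁆ fun a => ?_
  have h1 : a ∈ commutator A := Group.IsPerfect.mem_commutator
  have h2 : (⊤ : Subgroup A).map (inr : A →* RW A G) ≤ commutator (RW A G) := by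
    rintro _ ⟨c, -, rfl⟩
    exact inr_mem_comm c
  have h3 : (commutator A).map (inr : A →* RW A G) ≤
      ⁅commutator (RW A G), commutator (RW A G)⁆ := by
    rw [commutator_def A, Subgroup.map_commutator]
    exact Subgroup.commutator_mono h2 h2
  exact h3 ⟨a, h1, rfl⟩

/-- the part in the base group -/
def N1 (A G : Type) [Group A] [Group G] : Subgroup (A → G) :=
  (commutator (RW A G)).comap (inl : (A → G) →* RW A G)

instance : (N1 A G).Normal := by
  unfold N1
  infer_instance

theorem N1_index [hA : Group.IsPerfect A] : (N1 A G).index ≤ Nat.card G := by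
  have h1 : N1 A G = ((QuotientGroup.mk' (commutator (RW A G))).comp
      (inl : (A → G) →* RW A G)).ker := by
    ext g
    rw [MonoidHom.mem_ker]
    exact (QuotientGroup.eq_one_iff (N := commutator (RW A G)) (inl g)).symm
  rw [h1, Subgroup.index_ker]
  have h2 : ((QuotientGroup.mk' (commutator (RW A G))).comp (inl : (A → G) →* RW A G)).range ≤
      (rho (commutator (RW A G))).range := by
    rintro _ ⟨g, rfl⟩
    exact mk_inl_mem _ (fun a => inr_mem_comm a) g
  refine (Subgroup.card_le_of_le h2).trans ?_
  exact Nat.card_le_card_of_surjective (rho (commutator (RW A G))).rangeRestrict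
    (rho (commutator (RW A G))).rangeRestrict_surjective

/-- the part in the base group, as a subgroup of the commutator subgroup -/
def N2 (A G : Type) [Group A] [Group G] : Subgroup (commutator (RW A G)) :=
  ((rightHom : RW A G →* A).comp (commutator (RW A G)).subtype).ker

instance : (N2 A G).Normal := by
  unfold N2
  infer_instance

theorem N2_index : (N2 A G).index ≤ Nat.card A := by
  unfold N2
  rw [Subgroup.index_ker]
  exact Nat.card_le_card_of_injective _ (Subgroup.subtype_injective _)

/-- the two versions of the part in the base group are isomorphic -/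
def e21 : N2 A G ≃* N1 A G where
  toFun x := ⟨x.1.1.left, by
    have h1 : x.1.1.right = 1 := x.2
    have h2 := x.1.2
    rw [eq_inl h1] at h2
    exact h2⟩
  invFun g := ⟨⟨inl g.1, g.2⟩, by
    change rightHom (inl g.1 : RW A G) = 1
    simp⟩
  left_inv x := by
    apply Subtype.ext
    apply Subtype.ext
    exact (eq_inl (x.2 : x.1.1.right = 1)).symm
  right_inv g := rfl
  map_mul' x y := by
    apply Subtype.ext
    change (x.1.1 * y.1.1).left = x.1.1.left * y.1.1.left
    rw [mul_left, show x.1.1.right = 1 from x.2, map_one]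
    rfl

end perf

section lin

variable {G : Type} [Group G] [Fintype G] {O : ValuationSubring ℂ} {p : ℕ} [hp : Fact p.Prime]

theorem exists_lin {g : G} (hg : g ∉ commutator G) : ∃ lam : G →* ℂ, lam g ≠ 1 := by
  have h1 : (Abelianization.of g) ≠ 1 := by
    intro h
    apply hg
    have h2 : g ∈ (Abelianization.of (G := G)).ker := h
    rwa [Abelianization.ker_of] at h2
  obtain ⟨f, hf⟩ := CommGroup.exists_apply_ne_one_of_hasEnoughRootsOfUnity (Abelianization G) ℂ h1
  refine ⟨((Units.coeHom ℂ).comp f).comp Abelianization.of, fun h => hf ?_⟩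
  apply Units.ext
  exact h

theorem tw_eq_of_stable {X : Set (G → ℂ)} (hX : ∀ lam : G →* ℂ, ∀ χ ∈ X, (fun g => lam g * χ g) ∈ X)
    (lam : G →* ℂ) : tw lam X = X := by
  apply Set.Subset.antisymm
  · rintro _ ⟨χ, h, rfl⟩
    exact hX lam χ h
  · intro χ h
    refine ⟨_, hX (lamI lam) χ h, ?_⟩
    funext g
    change lam g * (lam g⁻¹ * χ g) = χ g
    rw [← mul_assoc, lam_mul_inv, one_mul]

/-- the block idempotent of a twist-stable block is supported on the commutator subgroup -/
theorem coeff_zero {X : Set (G → ℂ)} (hX : IsBlock O X)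
    (hst : ∀ lam : G →* ℂ, ∀ χ ∈ X, (fun g => lam g * χ g) ∈ X) {g : G} (hg : g ∉ commutator G) :
    blockCoeff X g = 0 := by
  have hg' : g⁻¹ ∉ commutator G := fun h => hg (by simpa using (commutator G).inv_mem h)
  obtain ⟨lam, hlam⟩ := exists_lin hg'
  have h1 := coeff_tw lam hX.irr g
  rw [tw_eq_of_stable hst] at h1
  have h2 : (lam g⁻¹ - 1) * blockCoeff X g = 0 := by linear_combination -h1
  exact (mul_eq_zero.mp h2).resolve_left (sub_ne_zero.mpr hlam)

variable {A : Type} [Group A] [Fintype A]

/-- **Blocks of perfect groups above powers of a twist-stable block.** -/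
theorem perfect_block [hA : Group.IsPerfect A] (hpO : (p : ℂ) ∈ O.nonunits)
    {X : Set (G → ℂ)} (hX : IsBlock O X) {D : Subgroup G} (hD : IsDefectGroup p O X D)
    (hst : ∀ lam : G →* ℂ, ∀ χ ∈ X, (fun g => lam g * χ g) ∈ X) :
    ∃ (Y : Set (commutator (RW A G) → ℂ)) (E : Subgroup (commutator (RW A G))), IsBlock O Y ∧
      IsDefectGroup p O Y E ∧
      Nat.card X ^ Nat.card A ≤ Nat.card G * (Nat.card A * Nat.card Y) ∧
      Nat.card E ≤ Nat.card A * Nat.card D ^ Nat.card A := by
  have h1 : IsBlock O (piS fun _ : A => X) := pi_block fun _ => hX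
  have h2 : IsDefectGroup p O (piS fun _ : A => X)
      (Subgroup.pi Set.univ fun _ : A => D) := pi_defect (fun _ => hX) fun _ => hD
  have hsupp : ∀ g : A → G, g ∉ N1 A G → blockCoeff (piS fun _ : A => X) g = 0 := by
    intro g hg
    rw [coeff_pi fun _ => hX.irr]
    by_contra hcon
    apply hg
    have h3 : ∀ i, g i ∈ commutator G := by
      intro i
      by_contra h4
      exact hcon (Finset.prod_eq_zero (Finset.mem_univ i) (coeff_zero hX hst h4))
    change inl g ∈ commutator (RW A G)
    have h5 : g = Finset.univ.noncommProd (fun i => Pi.mulSingle i (g i))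
        (fun i _ j _ _ => Pi.mulSingle_apply_commute g i j) :=
      (Finset.noncommProd_mulSingle g).symm
    rw [h5, Finset.map_noncommProd]
    refine Subgroup.noncommProd_mem _ _ fun i _ => ?_
    have h6 : (commutator G).map ((inl : (A → G) →* RW A G).comp
        (MonoidHom.mulSingle (fun _ => G) i)) ≤ commutator (RW A G) := by
      rw [commutator_def, Subgroup.map_commutator, commutator_def]
      exact Subgroup.commutator_mono le_top le_top
    exact h6 ⟨g i, h3 i, rfl⟩
  obtain ⟨b₁, E₁, hb₁, hE₁, hc₁, hd₁⟩ := go_down hpO h1 h2 hsupp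
  have hb₂ := pull_block (O := O) (e21 (A := A) (G := G)) hb₁
  have hE₂ := pull_defect (e21 (A := A) (G := G)) hb₁.irr hE₁
  obtain ⟨Y, E, hY, hE, hc₂, hd₂⟩ := go_up hpO hb₂ hE₂
  refine ⟨Y, E, hY, hE, ?_, ?_⟩
  · rw [card_piS fun _ => hX.irr, Finset.prod_const, Finset.card_univ,
      ← Nat.card_eq_fintype_card] at hc₁
    rw [card_pull] at hc₂
    calc Nat.card X ^ Nat.card A ≤ (N1 A G).index * Nat.card b₁ := hc₁
      _ ≤ Nat.card G * Nat.card b₁ := Nat.mul_le_mul_right _ N1_index
      _ ≤ Nat.card G * ((N2 A G).index * Nat.card Y) := Nat.mul_le_mul_left _ hc₂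
      _ ≤ Nat.card G * (Nat.card A * Nat.card Y) :=
        Nat.mul_le_mul_left _ (Nat.mul_le_mul_right _ N2_index)
  · have hcard : Nat.card (E₁.comap (e21 (A := A) (G := G)).toMonoidHom) = Nat.card E₁ := by
      refine Nat.card_congr (Equiv.subtypeEquiv (e21 (A := A) (G := G)).toEquiv fun z => ?_)
      rfl
    rw [hcard] at hd₂
    rw [card_piSub, Finset.prod_const, Finset.card_univ, ← Nat.card_eq_fintype_card] at hd₁
    calc Nat.card E ≤ (N2 A G).index * Nat.card E₁ := hd₂
      _ ≤ Nat.card A * Nat.card D ^ Nat.card A := Nat.mul_le_mul N2_index hd₁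

end lin

end Pool.Agent.H494_RB
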