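import Pool.Agent.H494_RB.Perf

/-!
# Galois-stable blocks of perfect groups
-/

set_option autoImplicit false
set_option linter.unusedSectionVars false

open scoped BigOperators Classical

noncomputable section

namespace Pool.Agent.H494_RB

open Pool.Agent.Q90.WR Pool.Agent.H254R3.IN Pool.Agent.Q259.BW Pool.Agent.Q288.MB
open Pool.Agent.Helper884.IC (B IsClass IsIrrChar Irr)
open SemidirectProduct
open scoped commutatorElement

theorem perfect_alt (ι : Type) [Fintype ι] [DecidableEq ι] (h : 5 ≤ Nat.card ι) :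
    Group.IsPerfect (alternatingGroup ι) := by
  have hs : IsSimpleGroup (alternatingGroup ι) := alternatingGroup.isSimpleGroup h
  rw [Group.isPerfect_def]
  rcases hs.eq_bot_or_eq_top_of_normal (commutator (alternatingGroup ι)) inferInstance with h1 | h1
  · exfalso
    rw [commutator_eq_bot_iff, alternatingGroup.isMulCommutative_iff_card_le_three] at h1
    omega
  · exact h1

theorem perfect_pi (ι P : Type) [Fintype ι] [Group P] [hP : Group.IsPerfect P] :
    Group.IsPerfect (ι → P) := by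
  rw [Group.isPerfect_def, eq_top_iff]
  intro g _
  have h5 : g = Finset.univ.noncommProd (fun i => Pi.mulSingle i (g i))
      (fun i _ j _ _ => Pi.mulSingle_apply_commute g i j) :=
    (Finset.noncommProd_mulSingle g).symm
  rw [h5]
  refine Subgroup.noncommProd_mem _ _ fun i _ => ?_
  have h6 : (commutator P).map (MonoidHom.mulSingle (fun _ : ι => P) i) ≤ commutator (ι → P) := by
    rw [commutator_def, Subgroup.map_commutator, commutator_def]
    exact Subgroup.commutator_mono le_top le_top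
  exact h6 ⟨g i, Group.IsPerfect.mem_commutator, rfl⟩

theorem perfect_semi (K A : Type) [Group K] [Group A] (φ : A →* MulAut K)
    [hK : Group.IsPerfect K] [hA : Group.IsPerfect A] : Group.IsPerfect (K ⋊[φ] A) := by
  rw [Group.isPerfect_def, eq_top_iff]
  intro x _
  rw [← inl_left_mul_inr_right x]
  have h1 : (commutator K).map (inl : K →* K ⋊[φ] A) ≤ commutator (K ⋊[φ] A) := by
    rw [commutator_def, Subgroup.map_commutator, commutator_def]
    exact Subgroup.commutator_mono le_top le_top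
  have h2 : (commutator A).map (inr : A →* K ⋊[φ] A) ≤ commutator (K ⋊[φ] A) := by
    rw [commutator_def, Subgroup.map_commutator, commutator_def]
    exact Subgroup.commutator_mono le_top le_top
  exact Subgroup.mul_mem _ (h1 ⟨_, Group.IsPerfect.mem_commutator, rfl⟩)
    (h2 ⟨_, Group.IsPerfect.mem_commutator, rfl⟩)

section alt

variable {ι : Type} [Fintype ι] {G : Type} [Group G] [Fintype G]
  {O : ValuationSubring ℂ} {p : ℕ} [hp : Fact p.Prime]

/-- the action of a group of permutations -/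
def actS (G : Type) [Group G] (S : Subgroup (Equiv.Perm ι)) : S →* MulAut (ι → G) :=
  (act ι G).comp S.subtype

theorem free_S {b : ι → Set (G → ℂ)} (hb : ∀ i, IsBlock O (b i)) (hne : Function.Injective b)
    (S : Subgroup (Equiv.Perm ι)) : Free (actS G S) (piS b) := by
  intro a θ h1 h2
  apply Subtype.ext
  exact free_pi hb hne (a : Equiv.Perm ι) θ h1 h2

theorem indA_actS (S : Subgroup (Equiv.Perm ι)) (θ : ι → G → ℂ) {a : Equiv.Perm ι} (ha : a ∈ S) :
    indA (actS G S) (piC fun i => θ (a i)) = indA (actS G S) (piC θ) := by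
  funext x
  unfold indA
  split_ifs with h
  · rw [← Equiv.sum_comp (Equiv.mulLeft (⟨a, ha⟩ : S)) (fun c => piC θ (actS G S c x.left))]
    refine Finset.sum_congr rfl fun c _ => ?_
    rw [← piC_act, Equiv.coe_mulLeft, map_mul]
    rfl
  · rfl

theorem gal_ind_piS (S : Subgroup (Equiv.Perm ι)) (σ : ℂ ≃+* ℂ) (θ : ι → G → ℂ) :
    (fun x => σ (indA (actS G S) (piC θ) x)) =
      indA (actS G S) (piC fun i => fun g => σ (θ i g)) := by
  funext x
  unfold indA piC
  split_ifs
  · simp only [map_sum, map_prod]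
  · exact map_zero σ

theorem gal_stable_S {b : ι → Set (G → ℂ)} (S : Subgroup (Equiv.Perm ι)) (σ : ℂ ≃+* ℂ)
    {a : Equiv.Perm ι} (ha : a ∈ S) (hab : ∀ i, ∀ θ ∈ b i, (fun g => σ (θ g)) ∈ b (a i)) :
    ∀ χ ∈ indA (actS G S) '' piS b, (fun x => σ (χ x)) ∈ indA (actS G S) '' piS b := by
  rintro _ ⟨_, ⟨θ, h, rfl⟩, rfl⟩
  rw [gal_ind_piS, ← indA_actS S _ (S.inv_mem ha)]
  refine ⟨_, ⟨fun i => fun g => σ (θ (a⁻¹ i) g), fun i => ?_, rfl⟩, rfl⟩
  have h1 := hab (a⁻¹ i) _ (h (a⁻¹ i))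
  have h2 : a (a⁻¹ i) = i := a.apply_symm_apply i
  rw [h2] at h1
  exact h1

theorem galois_gen [hG : Group.IsPerfect G] [Nonempty ι] (b : ι → Set (G → ℂ))
    (hpO : (p : ℂ) ∈ O.nonunits) (hb : ∀ i, IsBlock O (b i)) (hne : Function.Injective b)
    {F : ι → Subgroup G} (hF : ∀ i, IsDefectGroup p O (b i) (F i)) {k d : ℕ}
    (hk : ∀ i, Nat.card (b i) = k) (hd : ∀ i, Nat.card (F i) = d)
    (S : Subgroup (Equiv.Perm ι)) (hS : Group.IsPerfect S)
    (hstab : ∀ σ : ℂ ≃+* ℂ, ∃ a ∈ S, ∀ i, ∀ θ ∈ b i, (fun g => σ (θ g)) ∈ b (a i)) :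
    ∃ (H : Type) (_ : Group H) (_ : Finite H) (Y : Set (H → ℂ)) (E : Subgroup H) (m : ℕ),
      Group.IsPerfect H ∧ 1 ≤ m ∧ IsBlock O Y ∧ IsDefectGroup p O Y E ∧
        (∀ σ : ℂ ≃+* ℂ, ∀ χ ∈ Y, (fun g => σ (χ g)) ∈ Y) ∧
        Nat.card Y = k ^ m ∧ Nat.card E = d ^ m := by
  have hfree : Free (actS G S) (piS b) := free_S hb hne S
  have hpb := pi_block hb
  have iK' : Group.IsPerfect (ι → G) := perfect_pi ι G
  have hD := ind_defect hpO hpb hfree (pi_defect hb hF)
  refine ⟨(ι → G) ⋊[actS G S] S, inferInstance, inferInstance,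
    indA (actS G S) '' piS b, _, Fintype.card ι,
    perfect_semi _ _ _, Fintype.card_pos, ind_block hpb hfree, hD, ?_, ?_, ?_⟩
  · intro σ
    obtain ⟨a, ha, hab⟩ := hstab σ
    exact gal_stable_S S σ ha hab
  · rw [card_ind hpb.irr hfree, card_piS fun s => (hb s).irr,
      Finset.prod_congr rfl fun s _ => hk s, Finset.prod_const, Finset.card_univ]
  · rw [← Nat.card_congr (Subgroup.equivMapOfInjective _ _ inl_injective).toEquiv, card_piSub,
      Finset.prod_congr rfl fun s _ => hd s, Finset.prod_const, Finset.card_univ]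

end alt

section sq

/-- the diagonal action of a permutation on four copies is a square -/
theorem diag_even {Ω : Type} [Finite Ω] (π : Equiv.Perm Ω) :
    ∃ c : Equiv.Perm (Fin 4 → Ω), ∀ s i, (c * c) s i = π (s i) := by
  let f : (Fin 4 → Ω) → (Fin 4 → Ω) := fun s => ![s 2, s 3, π (s 0), π (s 1)]
  have hf : Function.Injective f := by
    intro s t h
    have h0 : s 2 = t 2 := congrFun h 0
    have h1 : s 3 = t 3 := congrFun h 1
    have h2 : π (s 0) = π (t 0) := congrFun h 2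
    have h3 : π (s 1) = π (t 1) := congrFun h 3
    have h2' := π.injective h2
    have h3' := π.injective h3
    funext i
    fin_cases i
    · exact h2'
    · exact h3'
    · exact h0
    · exact h1
  refine ⟨Equiv.ofBijective f (Finite.injective_iff_bijective.mp hf), fun s i => ?_⟩
  change f (f s) i = π (s i)
  fin_cases i <;> rfl

end sq

section fam

variable {G : Type} [Group G] [Fintype G] {O : ValuationSubring ℂ} {p : ℕ} [hp : Fact p.Prime]

section aux

variable {Ω : Type} [Fintype Ω] (β : Ω → Set (G → ℂ))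

/-- four-fold products of the blocks of a family -/
def b4 (s : Fin 4 → Ω) : Set ((Fin 4 → G) → ℂ) := piS fun i => β (s i)

theorem b4_inj (hβ : Function.Injective β) (hb : ∀ i, IsBlock O (β i)) :
    Function.Injective (b4 β) := by
  intro s t h
  funext i
  apply hβ
  by_contra hne
  choose θ hθ using fun i => (hb (s i)).nonempty
  have h1 : piC θ ∈ b4 β s := ⟨θ, hθ, rfl⟩
  rw [h] at h1
  have h2 := (mem_piS (b := fun i => β (t i)) (fun i => (hb (t i)).irr)
    (fun i => (hb (s i)).irr _ (hθ i))).mp h1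
  exact Set.disjoint_left.mp (block_disjoint (hb (s i)) (hb (t i)) hne) (hθ i) (h2 i)

theorem b4_block (hb : ∀ i, IsBlock O (β i)) (s : Fin 4 → Ω) : IsBlock O (b4 β s) :=
  pi_block fun i => hb (s i)

theorem b4_gal {σ : ℂ ≃+* ℂ} {π : Equiv.Perm Ω} (hπ : ∀ Z, β (π Z) = gal σ (β Z))
    {c : Equiv.Perm (Fin 4 → Ω)} (hc : ∀ s i, c s i = π (s i)) (s : Fin 4 → Ω) :
    ∀ θ ∈ b4 β s, (fun g => σ (θ g)) ∈ b4 β (c s) := by
  rintro _ ⟨θ, h, rfl⟩
  refine ⟨fun i => fun g => σ (θ i g), fun i => ?_, ?_⟩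
  · have h1 : β (c s i) = gal σ (β (s i)) := by rw [hc, hπ]
    change (fun g => σ (θ i g)) ∈ β (c s i)
    rw [h1]
    exact mem_gal.mpr (h i)
  · funext g
    unfold piC
    rw [map_prod]

theorem galois_aux [hG : Group.IsPerfect G] [Nonempty Ω] (hpO : (p : ℂ) ∈ O.nonunits)
    (hβ : Function.Injective β) (hb : ∀ i, IsBlock O (β i)) {E : Ω → Subgroup G}
    (hE : ∀ i, IsDefectGroup p O (β i) (E i)) {k d : ℕ} (hk : ∀ i, Nat.card (β i) = k)
    (hd : ∀ i, Nat.card (E i) = d)
    (perm : ∀ σ : ℂ ≃+* ℂ, ∃ π : Equiv.Perm Ω, ∀ Z, β (π Z) = gal σ (β Z))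
    (S : Subgroup (Equiv.Perm (Fin 4 → Ω))) (hS : Group.IsPerfect S) (hsq : ∀ c, c * c ∈ S) :
    ∃ (H : Type) (_ : Group H) (_ : Finite H) (Y : Set (H → ℂ)) (E : Subgroup H) (m : ℕ),
      Group.IsPerfect H ∧ 1 ≤ m ∧ IsBlock O Y ∧ IsDefectGroup p O Y E ∧
        (∀ σ : ℂ ≃+* ℂ, ∀ χ ∈ Y, (fun g => σ (χ g)) ∈ Y) ∧
        Nat.card Y = k ^ m ∧ Nat.card E = d ^ m := by
  have hbb : ∀ s, IsBlock O (b4 β s) := b4_block β hb
  have hF : ∀ s : Fin 4 → Ω, IsDefectGroup p O (b4 β s)
      (Subgroup.pi Set.univ fun i => E (s i)) := fun s =>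
    pi_defect (fun i => hb (s i)) fun i => hE (s i)
  have iK : Group.IsPerfect (Fin 4 → G) := perfect_pi (Fin 4) G
  have e1 : ∀ s, Nat.card (b4 β s) = k ^ 4 := by
    intro s
    unfold b4
    rw [card_piS fun i => (hb (s i)).irr, Finset.prod_congr rfl fun i _ => hk (s i),
      Finset.prod_const, Finset.card_univ, Fintype.card_fin]
  have e2 : ∀ s : Fin 4 → Ω, Nat.card (Subgroup.pi Set.univ fun i => E (s i)) = d ^ 4 := by
    intro s
    rw [card_piSub, Finset.prod_congr rfl fun i _ => hd (s i),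
      Finset.prod_const, Finset.card_univ, Fintype.card_fin]
  obtain ⟨H, i1, i2, Y, E', m, h1, h2, h3, h4, h5, h6, h7⟩ :=
    galois_gen (b4 β) hpO hbb (b4_inj β hβ hb) hF e1 e2 S hS (fun σ => by
      obtain ⟨π, hπ⟩ := perm σ
      obtain ⟨c, hc⟩ := diag_even π
      exact ⟨c * c, hsq c, b4_gal β hπ hc⟩)
  exact ⟨H, i1, i2, Y, E', 4 * m, h1, by omega, h3, h4, h5, by rw [h6, ← pow_mul],
    by rw [h7, ← pow_mul]⟩

end aux

theorem exists_perfect_sq (ι : Type) [Fintype ι] (h : 5 ≤ Nat.card ι) :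
    ∃ S : Subgroup (Equiv.Perm ι), Group.IsPerfect S ∧ ∀ c, c * c ∈ S :=
  ⟨alternatingGroup ι, perfect_alt ι h, fun c => by
    rw [Equiv.Perm.mem_alternatingGroup, map_mul, Int.units_mul_self]⟩

theorem exists_galois (hpO : (p : ℂ) ∈ O.nonunits) [hG : Group.IsPerfect G] {X : Set (G → ℂ)}
    (hX : IsBlock O X) {D : Subgroup G} (hD : IsDefectGroup p O X D) :
    ∃ (H : Type) (_ : Group H) (_ : Finite H) (Y : Set (H → ℂ)) (E : Subgroup H) (m : ℕ),
      Group.IsPerfect H ∧ 1 ≤ m ∧ IsBlock O Y ∧ IsDefectGroup p O Y E ∧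
        (∀ σ : ℂ ≃+* ℂ, ∀ χ ∈ Y, (fun g => σ (χ g)) ∈ Y) ∧
        Nat.card Y = Nat.card X ^ m ∧ Nat.card E = Nat.card D ^ m := by
  have hΩ : Finite (Fam p O G (Nat.card X) (Nat.card D)) := instFinFam _ _
  have : Fintype (Fam p O G (Nat.card X) (Nat.card D)) := Fintype.ofFinite _
  have perm : ∀ σ : ℂ ≃+* ℂ, ∃ a : Equiv.Perm (Fam p O G (Nat.card X) (Nat.card D)),
      ∀ Z, (a Z).1 = gal σ Z.1 := fun σ =>
    fam_perm (gal σ) (gal_inj σ) (fun X hX => gal_block σ hX) (fun X => card_gal σ X)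
      (fun X hX D hD => gal_defect σ hX.irr hD)
  rcases subsingleton_or_nontrivial (Fam p O G (Nat.card X) (Nat.card D)) with hs | hs
  · refine ⟨G, inferInstance, inferInstance, X, D, 1, hG, le_rfl, hX, hD, ?_, (pow_one _).symm,
      (pow_one _).symm⟩
    intro σ χ hχ
    obtain ⟨a, ha⟩ := perm σ
    let X' : Fam p O G (Nat.card X) (Nat.card D) := ⟨X, hX, rfl, D, hD, rfl⟩
    have h1 : (a X').1 = X := congrArg Subtype.val (Subsingleton.elim (a X') X')
    rw [ha] at h1
    rw [← h1]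
    exact mem_gal.mpr hχ
  · choose E hE hE' using fun i : Fam p O G (Nat.card X) (Nat.card D) => i.2.2.2
    have hcard : 5 ≤ Nat.card (Fin 4 → Fam p O G (Nat.card X) (Nat.card D)) := by
      have h1 : Nat.card (Fin 4 → Fam p O G (Nat.card X) (Nat.card D)) =
          Nat.card (Fam p O G (Nat.card X) (Nat.card D)) ^ 4 := by
        rw [Nat.card_fun, Nat.card_eq_fintype_card (α := Fin 4), Fintype.card_fin]
      have h2 : 1 < Nat.card (Fam p O G (Nat.card X) (Nat.card D)) := Finite.one_lt_card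
      rw [h1]
      calc 5 ≤ 2 ^ 4 := by norm_num
        _ ≤ _ := Nat.pow_le_pow_left h2 4
    obtain ⟨S, iS, hsq⟩ := exists_perfect_sq _ hcard
    exact galois_aux (fun i : Fam p O G (Nat.card X) (Nat.card D) => i.1) hpO
      Subtype.val_injective (fun i => i.2.1) hE (fun i => i.2.2.1) hE' perm S iS hsq

end fam

end Pool.Agent.H494_RB
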